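import Pool.Agent.L0h33.LD.Guess

/-!
# Bounded nondeterminism: `P ≠ NP`, and the chain of the classes `NP_{n^k}`
-/

set_option autoImplicit false

namespace Pool.Agent.L0h33.LD

open Function Pool.Agent.NPC Pool.Agent.H593R3.FBC Pool.Agent.H660R2.NX
open Pool.Agent.H620R2.Gauge (IsP)
open Pool.Agent.Y600.FB (chi)
open Pool.Agent.H639R2.NTP (exists_pow_bound)

attribute [local irreducible] unpair

/-! ### Roots -/

/-- The integer part of the `m`-th root of `n`. -/
def rt (m n : ℕ) : ℕ := Nat.findGreatest (fun a => a ^ m ≤ n) n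

theorem rt_pow {m : ℕ} (hm : 1 ≤ m) (n : ℕ) : rt m n ^ m ≤ n := by
  have h0 : (0 : ℕ) ^ m ≤ n := by rw [zero_pow (by omega)]; exact Nat.zero_le _
  exact Nat.findGreatest_spec (P := fun a => a ^ m ≤ n) (Nat.zero_le n) h0

theorem le_rt {m : ℕ} (hm : 1 ≤ m) {a n : ℕ} (h : a ^ m ≤ n) : a ≤ rt m n :=
  Nat.le_findGreatest ((Nat.le_self_pow (by omega) a).trans h) h

theorem lt_succ_rt {m : ℕ} (hm : 1 ≤ m) (n : ℕ) : n < (rt m n + 1) ^ m := by
  by_contra h
  have := le_rt hm (not_lt.1 h)
  omega

theorem poly_pow {α : Type} [TEnc α] {f : α → ℕ} (hf : Poly f) :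
    ∀ m : ℕ, Poly (fun a => f a ^ m)
  | 0 => (NPC.Poly.const 1).congr fun a => by simp
  | m + 1 => ((poly_pow hf m).mul hf).congr fun a => by rw [pow_succ]

theorem rt_count {m : ℕ} (hm : 1 ≤ m) (n : ℕ) :
    ((List.range (n + 1)).filter (fun a => decide (a ^ m ≤ n))).length = rt m n + 1 := by
  rw [← List.countP_eq_length_filter]
  have h1 : (List.range (n + 1)).countP (fun a => decide (a ^ m ≤ n)) =
      Nat.count (fun a => a ^ m ≤ n) (n + 1) := rfl
  rw [h1, Nat.count_eq_card_filter_range]
  have h2 : (Finset.range (n + 1)).filter (fun a => a ^ m ≤ n) = Finset.range (rt m n + 1) := by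
    ext a
    simp only [Finset.mem_filter, Finset.mem_range]
    constructor
    · rintro ⟨_, h⟩
      exact Nat.lt_succ_of_le (le_rt hm h)
    · intro h
      have h3 : a ≤ rt m n := by omega
      have h4 : rt m n ≤ n := Nat.findGreatest_le n
      exact ⟨by omega, (Nat.pow_le_pow_left h3 m).trans (rt_pow hm n)⟩
  rw [h2, Finset.card_range]

theorem upoly_rt {α : Type} [TEnc α] {n : α → ℕ} (hn : UPoly n) {m : ℕ} (hm : 1 ≤ m) :
    UPoly (fun a => rt m (n a)) := by
  have h1 : Poly (fun a => List.range (n a + 1)) := (hn.add (UPoly.const 1)).range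
  have h2 : Poly (fun a => (List.range (n a + 1)).filter (fun b => decide (b ^ m ≤ n a))) :=
    NPC.Poly.filter (p := fun a b => decide (b ^ m ≤ n a)) h1
      (NPC.Poly.decide_le (poly_pow (NPC.Poly.snd NPC.Poly.id) m)
        (hn.toPoly.comp (NPC.Poly.fst NPC.Poly.id)))
  refine (UPoly.length (NPC.Poly.tail h2)).congr fun a => ?_
  simp only [List.length_tail, rt_count hm]
  rfl

theorem nice_rt {m : ℕ} (hm : 1 ≤ m) : Nice (rt m) :=
  nice_of_upoly (upoly_rt (UPoly.length NPC.Poly.id) hm)

/-! ### `P` and `NP` -/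

/-- Padding makes the number of guessed bits as small as wanted. -/
theorem pad_guess {L : Set (List Bool)} (hL : InNP L) {m : ℕ} (hm : 1 ≤ m) :
    ∃ q : Polynomial ℕ, NPg (rt m) (padL q L) := by
  obtain ⟨V, p, hV, hVL⟩ := hL
  refine ⟨p ^ m, ?_⟩
  have h0 : Poly (fun y : List Bool => unpair y) := poly_unpair
  have h1 : Poly (fun y : List Bool => (unpair y).1) := h0.fst
  have h2 : Poly (fun y : List Bool => (unpair y).2) := h0.snd
  have h3 : Poly (fun y : List Bool => (unpair (unpair y).1).1) := h1.comp h1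
  set W : List Bool → List Bool := fun v =>
    if (p ^ m).eval (unpair (unpair v).1).1.length ≤ (unpair v).1.length then
      if (unpair v).2.length ≤ p.eval (unpair (unpair v).1).1.length then
        V (pairBits (unpair (unpair v).1).1 (unpair v).2) else [] else [] with hW
  have hWp : Poly W :=
    NPC.Poly.ite (NPC.Poly.decide_le (((UPoly.length h3).eval (p ^ m)).toPoly)
      (NPC.Poly.length h1))
      (NPC.Poly.ite (NPC.Poly.decide_le (NPC.Poly.length h2) ((UPoly.length h3).eval p).toPoly)
        ((poly_of_polyTime hV).comp (poly_pairBits h3 h2)) (NPC.Poly.const []))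
      (NPC.Poly.const [])
  refine ⟨W, 1, polyTime_of_poly' hWp, fun y => ?_⟩
  by_cases h4 : (p ^ m).eval (unpair y).1.length ≤ y.length
  · have h5 : y ∈ padL (p ^ m) L ↔ (unpair y).1 ∈ L := by
      unfold padL
      simp only [Set.mem_ofPred_eq, h4, and_true]
    rw [h5, hVL]
    have h6 : p.eval (unpair y).1.length ≤ rt m y.length := by
      refine le_rt hm ?_
      rwa [Polynomial.eval_pow] at h4
    constructor
    · rintro ⟨w, hw, hV⟩
      refine ⟨w, by omega, ?_⟩
      rw [hW]
      simp only
      rw [unpair_pairBits]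
      simp only [h4, hw, if_true]
      exact hV
    · rintro ⟨w, _, hV⟩
      rw [hW] at hV
      simp only at hV
      rw [unpair_pairBits] at hV
      simp only [h4, if_true] at hV
      by_cases h7 : w.length ≤ p.eval (unpair y).1.length
      · simp only [h7, if_true] at hV
        exact ⟨w, h7, hV⟩
      · simp only [h7, if_false] at hV
        simp at hV
  · have h5 : ¬ y ∈ padL (p ^ m) L := by
      unfold padL
      simp only [Set.mem_ofPred_eq, h4, and_false, not_false_eq_true]
    simp only [h5, false_iff]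
    rintro ⟨w, _, hV⟩
    rw [hW] at hV
    simp only at hV
    rw [unpair_pairBits] at hV
    simp only [h4, if_false] at hV
    simp at hV

/-- The dichotomy for `P` and `NP`. -/
theorem p_np : (∃ L, InNP L ∧ ¬ InP L) ↔ ∀ (m : ℕ) (I : Type) [Countable I] [PartialOrder I],
    1 ≤ m → ∃ (γ : I → ℕ → ℕ) (L : I → Set (List Bool)),
      (∀ i, Nice (γ i) ∧ (∀ n, γ i n ^ m ≤ n) ∧ NPg (γ i) (L i) ∧ ¬ InP (L i) ∧
        ∃ L', InNP L' ∧ ∀ A, NPg (γ i) A → ¬ IsP (chi A) L') ∧
      ∀ i j, (i ≤ j → (∀ n, γ i n ≤ γ j n) ∧ ∀ A, NPg (γ i) A → NPg (γ j) A) ∧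
        (¬ i ≤ j → ∀ A, NPg (γ j) A → ¬ IsP (chi A) (L i)) := by
  constructor
  · rintro ⟨L, hL, hP⟩ m I _ _ hm
    obtain ⟨q, hq⟩ := pad_guess hL hm
    have hr0 : Nice (fun _ => 0) := nice_const 0
    have hr1 : Nice (rt m) := nice_rt hm
    have e1 : Cls (BG (fun _ => 0) (rt m)) (BG (fun _ => 0) (rt m)) (fun _ => true)
        (padL q L) := (npg_two hr0 hr1 true).2 hq
    have e0 : ¬ InP (padL q L) := fun h => hP (inP_reduces (reduces_pad q L) h)
    have : Countable (WithBot (WithTop I)) := inferInstanceAs (Countable (Option (Option I)))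
    obtain ⟨h, h1, h2, h3, h4⟩ := universalT (bds_BG hr0 hr1 (fun n => Nat.zero_le _))
      (fun k n => by simp [BG]) e1 e0 (WithBot (WithTop I))
    let e : I → WithBot (WithTop I) := fun i => ((i : WithTop I) : WithBot (WithTop I))
    have he : ∀ i j, e i ≤ e j ↔ i ≤ j := by
      intro i j
      change ((i : WithTop I) : WithBot (WithTop I)) ≤ ((j : WithTop I) : WithBot (WithTop I)) ↔ _
      rw [WithBot.coe_le_coe, WithTop.coe_le_coe]
    have hcl : ∀ (i : WithBot (WithTop I)) (A : Set (List Bool)),
        NPg (fun n => B2 (fun _ => 0) (rt m) 0 n (h i n)) A ↔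
        Cls (BG (fun _ => 0) (rt m)) (BG (fun _ => 0) (rt m)) (h i) A := fun i A =>
      (cls_BG hr0 hr1 (h1 i)).symm
    have hni : ∀ i, Nice (fun n => B2 (fun _ => 0) (rt m) 0 n (h i n)) := fun i =>
      nice_B2 hr0 hr1 (h1 i)
    refine ⟨fun i n => B2 (fun _ => 0) (rt m) 0 n (h (e i) n),
      fun i => {x | x ∈ padL q L ∧ h (e i) x.length = true}, fun i => ⟨hni _, fun n => ?_,
        (hcl _ _).2 (h3 _), fun hp => ?_, ⟨_, npg_inNP (hni ⊤) ((hcl _ _).2 (h3 ⊤)), fun A hA =>
        h4 ⊤ (e i) (fun hle => ?_) A ((hcl _ _).1 hA)⟩⟩, fun i j => ⟨fun hij => ⟨?_, ?_⟩,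
        fun hij A hA => h4 _ _ (fun h => hij ((he i j).1 h)) A ((hcl _ _).1 hA)⟩⟩
    · change B2 (fun _ => 0) (rt m) 0 n (h (e i) n) ^ m ≤ n
      unfold B2
      split_ifs
      · exact rt_pow hm n
      · rw [zero_pow (by omega)]
        exact Nat.zero_le _
    · refine h4 (e i) ⊥ (fun h => WithBot.coe_ne_bot (le_bot_iff.1 h)) _
        ((hcl _ _).1 (npg_of_inP hp _)) (isP_self _)
    · have h2 : (⊤ : WithTop I) ≤ (i : WithTop I) := WithBot.coe_le_coe.1 hle
      exact WithTop.coe_ne_top (top_le_iff.1 h2)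
    · exact B2_mono (fun n => Nat.zero_le _) (h2 _ _ ((he i j).2 hij))
    · exact fun A hA => npg_mono (hni _)
        (B2_mono (fun n => Nat.zero_le _) (h2 _ _ ((he i j).2 hij))) hA
  · intro h
    obtain ⟨g, L, h1, _⟩ := h 1 Unit le_rfl
    obtain ⟨h2, _, h3, h4, _⟩ := h1 ()
    exact ⟨L (), npg_inNP h2 h3, h4⟩

/-! ### The chain -/

/-- The empty input does not matter. -/
theorem npg_patch {g : ℕ → ℕ} {L : Set (List Bool)} {V : List Bool → List Bool} {c : ℕ}
    (hV : PolyTime V) (h : ∀ x : List Bool, x ≠ [] →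
      (x ∈ L ↔ ∃ w : List Bool, w.length ≤ c * g x.length ∧ V (pairBits x w) = [true])) :
    NPg g L := by
  classical
  have h0 : Poly (fun y : List Bool => unpair y) := poly_unpair
  have h1 : Poly (fun y : List Bool => (unpair y).1) := h0.fst
  set W : List Bool → List Bool := fun v => if (unpair v).1 = [] then [decide ([] ∈ L)] else V v
    with hW
  have hWp : Poly W := NPC.Poly.ite (NPC.Poly.decide_eq h1 (NPC.Poly.const []))
    (NPC.Poly.const _) (poly_of_polyTime hV)
  refine ⟨W, c, polyTime_of_poly' hWp, fun x => ?_⟩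
  by_cases hx : x = []
  · subst hx
    constructor
    · intro h2
      refine ⟨[], by simp, ?_⟩
      rw [hW]
      simp only
      rw [unpair_pairBits]
      simp [h2]
    · rintro ⟨w, _, hw⟩
      rw [hW] at hw
      simp only at hw
      rw [unpair_pairBits] at hw
      simpa using hw
  · rw [h x hx]
    have h2 : ∀ w, W (pairBits x w) = V (pairBits x w) := by
      intro w
      rw [hW]
      simp only
      rw [unpair_pairBits]
      simp only [hx, if_false]
    simp only [h2]

theorem nice_pow (b : ℕ) : Nice (fun n => n ^ b) := by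
  have h := nice_poly (Polynomial.X ^ b)
  simpa using h

/-- The padding used for the chain. -/
def padG (b : ℕ) (x : List Bool) : List Bool :=
  pairBits x (List.replicate (rt b (x.length ^ (b + 1))) false)

theorem padG_length (b : ℕ) (x : List Bool) :
    (padG b x).length = 2 * x.length + 1 + rt b (x.length ^ (b + 1)) := by
  unfold padG
  rw [length_pairBits, List.length_replicate]

theorem arith {a b n : ℕ} (hab : a + 1 ≤ b) (hn : 1 ≤ n) :
    (2 * n + 1 + rt b (n ^ (b + 1))) ^ a ≤ 6 ^ a * n ^ b := by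
  set M := rt b (n ^ (b + 1)) with hM
  have hb : 1 ≤ b := by omega
  have h1 : M ^ b ≤ n ^ (b + 1) := rt_pow hb _
  have h2 : (M ^ a) ^ b ≤ (n ^ b) ^ b := by
    rw [← pow_mul, mul_comm, pow_mul, ← pow_mul n b b]
    refine (Nat.pow_le_pow_left h1 a).trans ?_
    rw [← pow_mul]
    refine Nat.pow_le_pow_right hn ?_
    nlinarith
  have h3 : M ^ a ≤ n ^ b := by
    exact le_of_pow_le_pow_left₀ (by omega) (Nat.zero_le _) h2
  have h4 : n ^ a ≤ n ^ b := Nat.pow_le_pow_right hn (by omega)
  have h5 : 2 * n + 1 + M ≤ 2 * max (3 * n) M := by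
    have := le_max_left (3 * n) M
    have := le_max_right (3 * n) M
    omega
  calc (2 * n + 1 + M) ^ a ≤ (2 * max (3 * n) M) ^ a := Nat.pow_le_pow_left h5 a
    _ = 2 ^ a * (max (3 * n) M) ^ a := by rw [mul_pow]
    _ ≤ 2 ^ a * (3 ^ a * n ^ b) := by
      refine Nat.mul_le_mul_left _ ?_
      rcases le_total (3 * n) M with h | h
      · rw [max_eq_right h]
        exact h3.trans (Nat.le_mul_of_pos_left _ (by positivity))
      · rw [max_eq_left h, mul_pow]
        exact Nat.mul_le_mul_left _ h4
    _ = 6 ^ a * n ^ b := by rw [← mul_assoc, ← mul_pow]; norm_num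

theorem chain_step {a b : ℕ} (hab : a + 1 ≤ b)
    (h : ∀ L, NPg (fun n => n ^ b) L → NPg (fun n => n ^ a) L) {L : Set (List Bool)}
    (hL : NPg (fun n => n ^ (b + 1)) L) : NPg (fun n => n ^ b) L := by
  have hb : 1 ≤ b := by omega
  obtain ⟨V, c, hV, hVL⟩ := hL
  have h0 : Poly (fun y : List Bool => unpair y) := poly_unpair
  have h1 : Poly (fun y : List Bool => (unpair y).1) := h0.fst
  have h2 : Poly (fun y : List Bool => (unpair y).2) := h0.snd
  have h3 : Poly (fun y : List Bool => (unpair (unpair y).1).1) := h1.comp h1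
  have hG : Poly (padG b) := by
    unfold padG
    refine poly_pairBits NPC.Poly.id ?_
    have hu : UPoly (fun x : List Bool => rt b (x.length ^ (b + 1))) := by
      refine upoly_rt (n := fun x : List Bool => x.length ^ (b + 1)) ?_ hb
      exact ((UPoly.length NPC.Poly.id).eval (Polynomial.X ^ (b + 1))).congr fun x => by simp
    have h1 : Poly (fun x : List Bool => (List.replicate (rt b (x.length ^ (b + 1))) ()).map
        (fun _ => false)) := NPC.Poly.map (F := fun _ _ => false) hu (NPC.Poly.const false)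
    exact h1.congr fun x => by simp
  -- the padded language
  set L' : Set (List Bool) := {y | y = padG b (unpair y).1 ∧ (unpair y).1 ∈ L} with hL'
  have hmem : ∀ x, padG b x ∈ L' ↔ x ∈ L := by
    intro x
    have h4 : (unpair (padG b x)).1 = x := by
      unfold padG
      rw [unpair_pairBits]
    simp only [hL', Set.mem_ofPred_eq, h4, true_and]
  have hL'b : NPg (fun n => n ^ b) L' := by
    set W : List Bool → List Bool := fun v =>
      if (unpair v).1 = padG b (unpair (unpair v).1).1 then
        if (unpair v).2.length ≤ c * (unpair (unpair v).1).1.length ^ (b + 1) then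
          V (pairBits (unpair (unpair v).1).1 (unpair v).2) else [] else [] with hW
    have hWp : Poly W :=
      NPC.Poly.ite (NPC.Poly.decide_eq h1 (hG.comp h3))
        (NPC.Poly.ite (NPC.Poly.decide_le (NPC.Poly.length h2)
          ((NPC.Poly.const c).mul (poly_pow (NPC.Poly.length h3) (b + 1))))
          ((poly_of_polyTime hV).comp (poly_pairBits h3 h2)) (NPC.Poly.const []))
        (NPC.Poly.const [])
    refine ⟨W, c, polyTime_of_poly' hWp, fun y => ?_⟩
    by_cases hy : y = padG b (unpair y).1
    · have h4 : y ∈ L' ↔ (unpair y).1 ∈ L := by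
        simp only [hL', Set.mem_ofPred_eq]
        exact ⟨fun h => h.2, fun h => ⟨hy, h⟩⟩
      rw [h4, hVL]
      have h5 : (unpair y).1.length ^ (b + 1) ≤ y.length ^ b := by
        have h6 := lt_succ_rt hb ((unpair y).1.length ^ (b + 1))
        have h7 : rt b ((unpair y).1.length ^ (b + 1)) + 1 ≤ y.length := by
          conv_rhs => rw [hy, padG_length]
          omega
        exact h6.le.trans (Nat.pow_le_pow_left h7 b)
      constructor
      · rintro ⟨w, hw, hV⟩
        refine ⟨w, hw.trans (Nat.mul_le_mul_left _ h5), ?_⟩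
        rw [hW]
        simp only
        rw [unpair_pairBits]
        simp only
        rw [if_pos hy, if_pos hw]
        exact hV
      · rintro ⟨w, _, hV⟩
        rw [hW] at hV
        simp only at hV
        rw [unpair_pairBits] at hV
        simp only at hV
        rw [if_pos hy] at hV
        by_cases h7 : w.length ≤ c * (unpair y).1.length ^ (b + 1)
        · rw [if_pos h7] at hV
          exact ⟨w, h7, hV⟩
        · rw [if_neg h7] at hV
          simp at hV
    · have h5 : ¬ y ∈ L' := fun h => hy h.1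
      simp only [h5, false_iff]
      rintro ⟨w, _, hV⟩
      rw [hW] at hV
      simp only at hV
      rw [unpair_pairBits] at hV
      simp only at hV
      rw [if_neg hy] at hV
      simp at hV
  obtain ⟨V', c', hV', hVL'⟩ := h L' hL'b
  have hWp : Poly (fun v => V' (pairBits (padG b (unpair v).1) (unpair v).2)) :=
    (poly_of_polyTime hV').comp (poly_pairBits (hG.comp h1) h2)
  -- guessed strings which are too long do not matter
  set W : List Bool → List Bool := fun v =>
    if (unpair v).2.length ≤ c' * (padG b (unpair v).1).length ^ a then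
      V' (pairBits (padG b (unpair v).1) (unpair v).2) else [] with hW
  have hWp' : Poly W :=
    NPC.Poly.ite (NPC.Poly.decide_le (NPC.Poly.length h2)
      ((NPC.Poly.const c').mul (poly_pow (NPC.Poly.length (hG.comp h1)) a))) hWp
      (NPC.Poly.const [])
  refine npg_patch (c := c' * 6 ^ a) (polyTime_of_poly' hWp') fun x hx => ?_
  have hx1 : 1 ≤ x.length := List.length_pos_iff.2 hx
  rw [← hmem, hVL']
  have h5 : (padG b x).length ^ a ≤ 6 ^ a * x.length ^ b := by
    rw [padG_length]
    exact arith hab hx1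
  constructor
  · rintro ⟨w, hw, hV⟩
    refine ⟨w, hw.trans ?_, ?_⟩
    · rw [mul_assoc]
      exact Nat.mul_le_mul_left _ h5
    · rw [hW]
      simp only
      rw [unpair_pairBits]
      simp only
      rw [if_pos hw]
      exact hV
  · rintro ⟨w, _, hV⟩
    rw [hW] at hV
    simp only at hV
    rw [unpair_pairBits] at hV
    simp only at hV
    by_cases h7 : w.length ≤ c' * (padG b x).length ^ a
    · rw [if_pos h7] at hV
      exact ⟨w, h7, hV⟩
    · rw [if_neg h7] at hV
      simp at hV

/-- If two consecutive classes of the chain are equal, all later classes are equal to them. -/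
theorem chain {a : ℕ} (h : ∀ L, NPg (fun n => n ^ (a + 1)) L → NPg (fun n => n ^ a) L) :
    ∀ L, InNP L → NPg (fun n => n ^ a) L := by
  have h1 : ∀ d, ∀ L, NPg (fun n => n ^ (a + 1 + d)) L → NPg (fun n => n ^ a) L := by
    intro d
    induction d with
    | zero => exact h
    | succ d ih =>
      intro L hL
      exact ih L (chain_step (by omega) ih hL)
  intro L hL
  obtain ⟨V, p, hV, hVL⟩ := hL
  obtain ⟨k, hk⟩ := exists_pow_bound p
  refine h1 (k) L ?_
  have h0 : Poly (fun y : List Bool => unpair y) := poly_unpair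
  have h1 : Poly (fun y : List Bool => (unpair y).1) := h0.fst
  have h2 : Poly (fun y : List Bool => (unpair y).2) := h0.snd
  set W : List Bool → List Bool := fun v =>
    if (unpair v).2.length ≤ p.eval (unpair v).1.length then V v else [] with hW
  have hWp : Poly W := NPC.Poly.ite (NPC.Poly.decide_le (NPC.Poly.length h2)
    ((UPoly.length h1).eval p).toPoly) (poly_of_polyTime hV) (NPC.Poly.const [])
  refine npg_patch (c := k + 1) (polyTime_of_poly' hWp) fun x hx => ?_
  have hx1 : 1 ≤ x.length := List.length_pos_iff.2 hx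
  rw [hVL]
  constructor
  · rintro ⟨w, hw, hV⟩
    refine ⟨w, hw.trans ((hk _).trans ?_), ?_⟩
    · have h3 : x.length ^ k ≤ x.length ^ (a + 1 + k) := Nat.pow_le_pow_right hx1 (by omega)
      have h4 : 1 ≤ x.length ^ (a + 1 + k) := Nat.one_le_pow _ _ hx1
      nlinarith
    · rw [hW]
      simp only
      rw [unpair_pairBits]
      simp only
      rw [if_pos hw]
      exact hV
  · rintro ⟨w, _, hV⟩
    rw [hW] at hV
    simp only at hV
    rw [unpair_pairBits] at hV
    simp only at hV
    by_cases h7 : w.length ≤ p.eval x.length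
    · rw [if_pos h7] at hV
      exact ⟨w, h7, hV⟩
    · rw [if_neg h7] at hV
      simp at hV

end Pool.Agent.L0h33.LD
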