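import Pool.Agent.Y454.FB.Clock
import Pool.Agent.Y340.FB.POS
import Pool.Agent.H593R3.FBC.KSat

/-!
# Modes of a slow search
-/

set_option autoImplicit false

namespace Pool.Agent.L0h33.LD

open Pool.Agent.NPC Pool.Agent.H593R3.FBC Pool.Agent.Y600.FB

theorem poly_flag {m : Mach} (hm : m.OK) : Poly (fun x : List Bool => m.flag x.length) := by
  have h0 : Poly (fun x : List Bool => ((x.map (fun _ => ()), []) : Inst)) := by fun_prop
  have h1 : Poly (fun x : List Bool => flagsL m (x.map (fun _ => ()), [])) :=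
    (poly_flagsL hm).comp h0
  have h2 : Poly (fun x : List Bool => (flagsL m (x.map (fun _ => ()), [])).getD x.length false) := by
    fun_prop
  refine h2.congr fun x => ?_
  exact fin_flagsL hm (I := (x.map (fun _ => ()), [])) (n := x.length) (by simp)

theorem clock {G : ℕ → ℕ → Prop} (hG : PrimrecRel G) (hex : ∀ x, ∃ N, G x N) (I : Type)
    [Countable I] [PartialOrder I] :
    ∃ h : I → ℕ → Bool, (∀ i, Poly (fun x : List Bool => h i x.length)) ∧
      (∀ i j, i ≤ j → ∀ n, h i n = true → h j n = true) ∧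
      ∀ i j, ¬ i ≤ j → ∀ k, ∃ x N, k ≤ x ∧ G x N ∧
        ∀ n, x ≤ n → n < N → h i n = true ∧ h j n = false := by
  obtain ⟨P, ph, h1, h2⟩ := Pool.Agent.Y454.FB.t_CLOCK G hG hex
  obtain ⟨K, S, hK, hS1, hS2⟩ := Pool.Agent.Y340.FB.t_POS I
  refine ⟨fun i n => S i (ph n % K i), fun i => ?_, fun i j hij n hn => hS1 i j hij _ hn,
    fun i j hij k => ?_⟩
  · obtain ⟨hok, hfl⟩ := h2 (K i) (hK i) (S i)
    exact (poly_flag hok).congr fun x => hfl x.length
  · obtain ⟨p, hp, h3, h4⟩ := hS2 i j hij k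
    obtain ⟨x, N, hx, hG', hw⟩ := h1 p
    refine ⟨x, N, hp.trans hx, hG', fun n hn hnN => ?_⟩
    simp only [hw n hn hnN]
    exact ⟨h3, h4⟩

end Pool.Agent.L0h33.LD
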