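import Pool.Agent.L0h33.LD.Defs
import Pool.Agent.H593R3.FBC.Lad

/-!
# Counting accepted strings
-/

set_option autoImplicit false

namespace Pool.Agent.L0h33.LD

open Pool.Agent.NPC Pool.Agent.H593R3.FBC Pool.Agent.H660R2.NX

/-- All strings of length `r`. -/
def exL : ℕ → List (List Bool)
  | 0 => [[]]
  | r + 1 => (exL r).flatMap (fun c => [true :: c, false :: c])

theorem mem_exL {c : List Bool} : ∀ {r : ℕ}, c ∈ exL r ↔ c.length = r := by
  intro r
  induction r generalizing c with
  | zero => simp [exL]
  | succ r ih =>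
    simp only [exL, List.mem_flatMap, List.mem_cons, List.not_mem_nil, or_false]
    constructor
    · rintro ⟨a, ha, rfl | rfl⟩ <;> simpa using ih.1 ha
    · intro h
      cases c with
      | nil => simp at h
      | cons b c =>
        refine ⟨c, ih.2 (by simpa using h), ?_⟩
        cases b <;> simp

theorem nodup_exL : ∀ r, (exL r).Nodup
  | 0 => by simp [exL]
  | r + 1 => by
    rw [exL, List.nodup_flatMap]
    refine ⟨fun c _ => by simp, (nodup_exL r).imp fun {a b} h => ?_⟩
    change List.Disjoint [true :: a, false :: a] [true :: b, false :: b]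
    rw [List.disjoint_left]
    intro w hw hw'
    simp only [List.mem_cons, List.not_mem_nil, or_false] at hw hw'
    rcases hw with rfl | rfl <;> rcases hw' with h' | h' <;> simp_all

theorem primrec_exL : Primrec exL := by
  have h : Primrec (Nat.rec (motive := fun _ => List (List Bool)) [[]] (fun _ ih =>
      ih.flatMap (fun c => [true :: c, false :: c]))) := by
    refine Primrec.nat_rec₁ _ ?_
    have h1 : Primrec (fun q : (ℕ × List (List Bool)) × List Bool =>
        [true :: q.2, false :: q.2]) :=
      Primrec.list_cons.comp (Primrec.list_cons.comp (Primrec.const true) Primrec.snd)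
        (Primrec.list_cons.comp (Primrec.list_cons.comp (Primrec.const false) Primrec.snd)
          (Primrec.const []))
    have h2 : Primrec (fun q : ℕ × List (List Bool) =>
        q.2.flatMap (fun c => [true :: c, false :: c])) :=
      Primrec.list_flatMap Primrec.snd h1.to₂
    exact h2.to₂
  refine h.of_eq fun n => ?_
  induction n with
  | zero => rfl
  | succ n ih => simp only [exL, ← ih]

theorem acc_eq (V : List Bool → List Bool) (x : List Bool) (r : ℕ) :
    acc V x r = ((exL r).filter (fun w => decide (V (pairBits x w) = [true]))).length := by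
  classical
  unfold acc
  rw [← List.toFinset_card_of_nodup ((nodup_exL r).filter _),
    ← Finset.card_image_of_injective _ (List.ofFn_injective (n := r) (α := Bool))]
  congr 1
  ext w
  simp only [Finset.mem_image, Finset.mem_filter, Finset.mem_univ, true_and, List.mem_toFinset,
    List.mem_filter, mem_exL, decide_eq_true_eq]
  constructor
  · rintro ⟨f, hf, rfl⟩
    exact ⟨by simp, hf⟩
  · rintro ⟨h1, h2⟩
    subst h1
    exact ⟨fun i => w.get i, by rwa [List.ofFn_get], List.ofFn_get w⟩

theorem acc_le (V : List Bool → List Bool) (x : List Bool) (r : ℕ) : acc V x r ≤ 2 ^ r := by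
  unfold acc
  refine (Finset.card_filter_le _ _).trans ?_
  simp

theorem acc_all {V : List Bool → List Bool} {x : List Bool} {r : ℕ}
    (h : ∀ w, V (pairBits x w) = [true]) : acc V x r = 2 ^ r := by
  unfold acc
  rw [Finset.filter_true_of_mem fun w _ => h _]
  simp

theorem acc_none {V : List Bool → List Bool} {x : List Bool} {r : ℕ}
    (h : ∀ w, V (pairBits x w) ≠ [true]) : acc V x r = 0 := by
  unfold acc
  rw [Finset.filter_false_of_mem fun w _ => h _]
  simp

theorem acc_pos {V : List Bool → List Bool} {x : List Bool} {r : ℕ} :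
    acc V x r ≠ 0 ↔ ∃ w ∈ exL r, V (pairBits x w) = [true] := by
  rw [acc_eq]
  simp

theorem acc_congr {V V' : List Bool → List Bool} {x x' : List Bool} {r : ℕ}
    (h : ∀ w, w.length = r → (V (pairBits x w) = [true] ↔ V' (pairBits x' w) = [true])) :
    acc V x r = acc V' x' r := by
  unfold acc
  congr 1
  refine Finset.filter_congr fun w _ => h _ (by simp)

theorem acc_take {V V' : List Bool → List Bool} {x x' : List Bool} {r r' : ℕ} (hr : r ≤ r')
    (h : ∀ w, w.length = r' → (V' (pairBits x' w) = [true] ↔ V (pairBits x (w.take r)) = [true])) :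
    acc V' x' r' = 2 ^ (r' - r) * acc V x r := by
  obtain ⟨d, rfl⟩ := Nat.exists_eq_add_of_le hr
  rw [Nat.add_sub_cancel_left]
  unfold acc
  have h1 : (Finset.univ.filter fun w : Fin (r + d) → Bool => V' (pairBits x' (List.ofFn w)) = [true])
      = ((Finset.univ.filter fun w : Fin r → Bool => V (pairBits x (List.ofFn w)) = [true]) ×ˢ
        (Finset.univ : Finset (Fin d → Bool))).map (Fin.appendEquiv r d).toEmbedding := by
    ext w
    simp only [Finset.mem_filter, Finset.mem_univ, true_and, Finset.mem_map, Finset.mem_product,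
      and_true, Equiv.coe_toEmbedding]
    rw [h _ (by simp)]
    constructor
    · intro hw
      refine ⟨(Fin.appendEquiv r d).symm w, ?_, (Fin.appendEquiv r d).apply_symm_apply w⟩
      rw [← (Fin.appendEquiv r d).apply_symm_apply w] at hw
      rw [show (Fin.appendEquiv r d) ((Fin.appendEquiv r d).symm w) =
        Fin.append ((Fin.appendEquiv r d).symm w).1 ((Fin.appendEquiv r d).symm w).2 from rfl,
        List.ofFn_fin_append, List.take_left' (by simp)] at hw
      exact hw
    · rintro ⟨a, ha, rfl⟩
      rw [show (Fin.appendEquiv r d) a = Fin.append a.1 a.2 from rfl,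
        List.ofFn_fin_append, List.take_left' (by simp)]
      exact ha
  rw [h1, Finset.card_map, Finset.card_product]
  simp [mul_comm]

/-- The machine `V` with `r` random bits is right on `x`. -/
def Ok (V : List Bool → List Bool) (x : List Bool) (r s : ℕ) (P : Prop) : Prop :=
  (P → 2 ^ r ≤ 2 ^ s * acc V x r) ∧ (¬ P → acc V x r = 0)

theorem Ok.more {V V' : List Bool → List Bool} {x x' : List Bool} {r r' s s' : ℕ} {P : Prop}
    (h : Ok V x r s P) (hr : r ≤ r') (hs : s ≤ s')
    (hV : ∀ w, w.length = r' → (V' (pairBits x' w) = [true] ↔ V (pairBits x (w.take r)) = [true])) :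
    Ok V' x' r' s' P := by
  have h1 := acc_take hr hV
  refine ⟨fun hP => ?_, fun hP => by rw [h1, h.2 hP, mul_zero]⟩
  rw [h1]
  calc 2 ^ r' = 2 ^ (r' - r) * 2 ^ r := by rw [← pow_add]; congr 1; omega
    _ ≤ 2 ^ (r' - r) * (2 ^ s * acc V x r) := Nat.mul_le_mul_left _ (h.1 hP)
    _ ≤ 2 ^ (r' - r) * (2 ^ s' * acc V x r) :=
      Nat.mul_le_mul_left _ (Nat.mul_le_mul_right _ (Nat.pow_le_pow_right (by norm_num) hs))
    _ = _ := by ring

theorem Ok.congr {V V' : List Bool → List Bool} {x x' : List Bool} {r s : ℕ} {P Q : Prop}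
    (h : Ok V x r s P) (hPQ : P ↔ Q)
    (hV : ∀ w, w.length = r → (V (pairBits x w) = [true] ↔ V' (pairBits x' w) = [true])) :
    Ok V' x' r s Q := by
  have h1 := acc_congr hV
  unfold Ok at h ⊢
  rw [← h1, ← hPQ]
  exact h

theorem Ok.const {V : List Bool → List Bool} {x : List Bool} {r s : ℕ} {P : Prop}
    (h : ∀ w, V (pairBits x w) = [true] ↔ P) : Ok V x r s P := by
  refine ⟨fun hP => ?_, fun hP => acc_none fun w hw => hP ((h w).1 hw)⟩
  rw [acc_all fun w => (h w).2 hP]
  exact Nat.le_mul_of_pos_left _ (by positivity)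

/-- A machine which is right tells members from nonmembers. -/
theorem Ok.iff {V : List Bool → List Bool} {x : List Bool} {r s : ℕ} {P : Prop}
    (h : Ok V x r s P) : P ↔ ∃ w ∈ exL r, V (pairBits x w) = [true] := by
  rw [← acc_pos]
  constructor
  · intro hP h0
    have := h.1 hP
    rw [h0, mul_zero] at this
    have : 0 < 2 ^ r := by positivity
    omega
  · intro h0
    by_contra hP
    exact h0 (h.2 hP)

section

variable {α : Type} [Primcodable α]

theorem prim_acc {z x : α → List Bool} {k r : α → ℕ} (hz : Primrec z) (hk : Primrec k)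
    (hx : Primrec x) (hr : Primrec r) : Primrec (fun a => acc (FU (z a) (k a)) (x a) (r a)) := by
  have h1 : PrimrecRel (fun (w : List Bool) (q : List Bool × ℕ × List Bool) =>
      FU q.1 q.2.1 (pairBits q.2.2 w) = [true]) :=
    PrimrecRel.comp Primrec.eq (prim_FU (Primrec.fst.comp Primrec.snd)
      (Primrec.fst.comp (Primrec.snd.comp Primrec.snd))
      (prim_pair (Primrec.snd.comp (Primrec.snd.comp Primrec.snd)) Primrec.fst))
      (Primrec.const [true])
  have h2 := h1.listFilter
  have h3 := (Primrec.list_length.comp h2).comp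
    (Primrec.pair (primrec_exL.comp hr) (Primrec.pair hz (Primrec.pair hk hx)))
  exact h3.of_eq fun a => (acc_eq _ _ _).symm

theorem prim_Ok {z x : α → List Bool} {k r s : α → ℕ} {P : α → Prop} (hz : Primrec z)
    (hk : Primrec k) (hx : Primrec x) (hr : Primrec r) (hs : Primrec s) (hP : PrimrecPred P) :
    PrimrecPred (fun a => Ok (FU (z a) (k a)) (x a) (r a) (s a) (P a)) := by
  have hA := prim_acc hz hk hx hr
  have hp : Primrec (fun a => 2 ^ r a) := Pool.Agent.H639R2.NTP.C5.primrec_two_pow.comp hr
  have hq : Primrec (fun a => 2 ^ s a) := Pool.Agent.H639R2.NTP.C5.primrec_two_pow.comp hs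
  have h1 : PrimrecPred (fun a => 2 ^ r a ≤ 2 ^ s a * acc (FU (z a) (k a)) (x a) (r a)) :=
    PrimrecRel.comp Primrec.nat_le hp (Primrec.nat_mul.comp hq hA)
  have h2 : PrimrecPred (fun a => acc (FU (z a) (k a)) (x a) (r a) = 0) :=
    PrimrecRel.comp Primrec.eq hA (Primrec.const 0)
  have h3 := (hP.not.or h1).and (hP.or h2)
  refine PrimrecPred.of_eq h3 fun a => ?_
  unfold Ok
  tauto

end

end Pool.Agent.L0h33.LD
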