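import Mathlib
import Pool.Agent.NPC.Classes

/-!
# Polynomial-time machines with bounded randomness and bounded success probability
-/

set_option autoImplicit false

namespace Pool.Agent.L0h33.LD

open Pool.Agent.NPC

/-- The number of strings `w` of length `r` on which the machine `V` accepts the input `x`. -/
def acc (V : List Bool → List Bool) (x : List Bool) (r : ℕ) : ℕ :=
  (Finset.univ.filter fun w : Fin r → Bool => V (pairBits x (List.ofFn w)) = [true]).card

/-- The languages `L` which have a polynomial-time machine `V` that uses `r (|x|)` random bits on
the input `x`, accepts every member `x` of `L` with probability at least `2 ^ (- s (|x|))`, and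
never accepts a string which is not in `L`. -/
def Rnd (r s : ℕ → ℕ) (L : Set (List Bool)) : Prop :=
  ∃ V : List Bool → List Bool, PolyTime V ∧ ∀ x,
    (x ∈ L → 2 ^ r x.length ≤ 2 ^ s x.length * acc V x (r x.length)) ∧
    (x ∉ L → acc V x (r x.length) = 0)

/-- The class `RP`. -/
def InRP (L : Set (List Bool)) : Prop :=
  ∃ p : Polynomial ℕ, Rnd (fun n => p.eval n) (fun _ => 1) L

/-- The class `NP`, with witnesses of a prescribed length. -/
def InNPw (L : Set (List Bool)) : Prop :=
  ∃ (V : List Bool → List Bool) (p : Polynomial ℕ), PolyTime V ∧
    ∀ x, x ∈ L ↔ ∃ w : Fin (p.eval x.length) → Bool, V (pairBits x (List.ofFn w)) = [true]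

/-- Polynomial time with one-sided error and success probability at least `2 ^ (- s (n))`, and any
polynomial number of random bits. -/
def SPr (s : ℕ → ℕ) (L : Set (List Bool)) : Prop :=
  ∃ p : Polynomial ℕ, Rnd (fun n => p.eval n) s L

/-- `g (n)` can be computed in polynomial time if `n` is given in unary. -/
def Nice (g : ℕ → ℕ) : Prop := PolyTime (fun x => List.replicate (g x.length) true)

end Pool.Agent.L0h33.LD
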