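import Pool.Agent.L0h33.LD.Count
import Pool.Agent.L0h33.LD.Clock

/-!
# The general theorem
-/

set_option autoImplicit false

namespace Pool.Agent.L0h33.LD

open Pool.Agent.NPC Pool.Agent.H593R3.FBC Pool.Agent.H660R2.NX
open Pool.Agent.H639R2.NTP.C5 (allL mem_allL)

attribute [local irreducible] unpair

theorem poly_take {α : Type} [TEnc α] {w : α → List Bool} {n : α → ℕ} (hw : Poly w)
    (hn : UPoly n) : Poly (fun a => (w a).take (n a)) := by
  have h1 : Poly (fun a => ((w a).zip (List.range (n a))).map Prod.fst) :=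
    NPC.Poly.map (F := fun _ p => p.1) (NPC.Poly.zip hw hn.range) (by fun_prop)
  refine h1.congr fun a => ?_
  refine List.ext_getElem (by simp [Nat.min_comm]) fun i h1 h2 => ?_
  simp

/-- The class with the bounds `B` and `S` in the mode `h`. -/
def Cls (B S : ℕ → ℕ → Bool → ℕ) (h : ℕ → Bool) (L : Set (List Bool)) : Prop :=
  ∃ (k : ℕ) (V : List Bool → List Bool), PolyTime V ∧
    ∀ x, Ok V x (B k x.length (h x.length)) (S k x.length (h x.length)) (x ∈ L)

structure Bds (B S : ℕ → ℕ → Bool → ℕ) : Prop where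
  pB : Primrec (fun p : ℕ × ℕ × Bool => B p.1 p.2.1 p.2.2)
  pS : Primrec (fun p : ℕ × ℕ × Bool => S p.1 p.2.1 p.2.2)
  uB : ∀ k b, UPoly (fun x : List Bool => B k x.length b)
  mB : ∀ k n, B k n false ≤ B k n true
  mS : ∀ k n, S k n false ≤ S k n true

theorem UPoly.ite {α : Type} [TEnc α] {b : α → Bool} {m n : α → ℕ} (hb : Poly b) (hm : UPoly m)
    (hn : UPoly n) : UPoly (fun a => if b a = true then m a else n a) := by
  have h1 : Poly (fun a => if b a = true then List.replicate (m a) () else
      List.replicate (n a) ()) := NPC.Poly.ite (NPC.Poly.decide_bool hb) hm hn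
  refine NPC.Poly.congr h1 fun a => ?_
  by_cases h : b a = true
  · simp only [h, if_true]
  · simp only [h]
    rfl

theorem cls_mono {B S : ℕ → ℕ → Bool → ℕ} (hBS : Bds B S) {h h' : ℕ → Bool}
    (hh : Poly (fun x : List Bool => h x.length)) (hle : ∀ n, h n = true → h' n = true)
    {L : Set (List Bool)} (hL : Cls B S h L) : Cls B S h' L := by
  obtain ⟨k, V, hV, hok⟩ := hL
  have hu : UPoly (fun x : List Bool => B k x.length (h x.length)) := by
    refine (UPoly.ite hh (hBS.uB k true) (hBS.uB k false)).congr fun x => ?_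
    simp only
    split_ifs with h1
    · rw [h1]
    · rw [Bool.not_eq_true] at h1
      rw [h1]
  set W : List Bool → List Bool := fun y => V (pairBits (unpair y).1
    ((unpair y).2.take (B k (unpair y).1.length (h (unpair y).1.length)))) with hW
  have hWp : Poly W := by
    have h0 : Poly (fun y : List Bool => unpair y) := poly_unpair
    have h1 : Poly (fun y : List Bool => (unpair y).1) := h0.fst
    have h2 : Poly (fun y : List Bool => (unpair y).2) := h0.snd
    exact (poly_of_polyTime hV).comp (poly_pairBits h1 (poly_take h2 (hu.comp h1)))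
  refine ⟨k, W, polyTime_of_poly' hWp, fun x => ?_⟩
  refine (hok x).more ?_ ?_ fun w hw => ?_
  · cases h1 : h x.length with
    | true => rw [hle _ h1]
    | false =>
      cases h' x.length with
      | true => exact hBS.mB _ _
      | false => exact le_rfl
  · cases h1 : h x.length with
    | true => rw [hle _ h1]
    | false =>
      cases h' x.length with
      | true => exact hBS.mS _ _
      | false => exact le_rfl
  · rw [hW]
    simp only
    rw [unpair_pairBits]

theorem cls_mask {B S : ℕ → ℕ → Bool → ℕ} {h : ℕ → Bool}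
    (hh : Poly (fun x : List Bool => h x.length)) {L : Set (List Bool)}
    (hL : Cls B S (fun _ => true) L) : Cls B S h {x | x ∈ L ∧ h x.length = true} := by
  obtain ⟨k, V, hV, hok⟩ := hL
  set W : List Bool → List Bool := fun y => if h (unpair y).1.length = true then V y else []
    with hW
  have hWp : Poly W := by
    have h0 : Poly (fun y : List Bool => unpair y) := poly_unpair
    have h1 : Poly (fun y : List Bool => (unpair y).1) := h0.fst
    exact NPC.Poly.ite (NPC.Poly.decide_bool (hh.comp h1)) (poly_of_polyTime hV)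
      (NPC.Poly.const [])
  refine ⟨k, W, polyTime_of_poly' hWp, fun x => ?_⟩
  cases h1 : h x.length with
  | true =>
    have h2 := hok x
    simp only at h2
    refine h2.congr (by simp [h1]) fun w _ => ?_
    rw [hW]
    simp only
    rw [unpair_pairBits]
    simp [h1]
  | false =>
    refine Ok.const fun w => ?_
    rw [hW]
    simp only
    rw [unpair_pairBits]
    simp [h1]

theorem cls_patch {B S : ℕ → ℕ → Bool → ℕ} {L : Set (List Bool)} {k m : ℕ}
    {V : List Bool → List Bool} (hV : PolyTime V)
    (h : ∀ x : List Bool, m ≤ x.length →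
      Ok V x (B k x.length false) (S k x.length false) (x ∈ L)) :
    Cls B S (fun _ => false) L := by
  classical
  set T : List (List Bool) := (allL m).filter (fun x => decide (x ∈ L)) with hT
  set W : List Bool → List Bool := fun y => if (unpair y).1.length < m then
    [decide ((unpair y).1 ∈ T)] else V y with hW
  have hWp : Poly W := by
    have h0 : Poly (fun y : List Bool => unpair y) := poly_unpair
    have h1 : Poly (fun y : List Bool => (unpair y).1) := h0.fst
    exact NPC.Poly.ite (NPC.Poly.decide_lt (NPC.Poly.length h1) (NPC.Poly.const m))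
      (NPC.Poly.cons ((NPC.Poly.decide_mem h1 (NPC.Poly.const T)).congr fun _ => by congr)
        (NPC.Poly.const [])) (poly_of_polyTime hV)
  refine ⟨k, W, polyTime_of_poly' hWp, fun x => ?_⟩
  by_cases hx : x.length < m
  · refine Ok.const fun w => ?_
    rw [hW]
    simp only
    rw [unpair_pairBits]
    simp only [hx, if_true, List.cons.injEq, decide_eq_true_eq, and_true, hT, List.mem_filter,
      mem_allL]
    exact ⟨fun h => h.2, fun h => ⟨hx.le, h⟩⟩
  · refine (h x (not_lt.1 hx)).congr Iff.rfl fun w _ => ?_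
    rw [hW]
    simp only
    rw [unpair_pairBits]
    simp [hx]

/-- The search predicate: all machines with small numbers fail on a string of length between `x`
and `N`. -/
def GB (B S : ℕ → ℕ → Bool → ℕ) (L : Set (List Bool)) (x N : ℕ) : Prop :=
  ∀ j ∈ List.range x, ∀ k ∈ List.range x, ∃ v ∈ List.range N, x ≤ (str v).length ∧
    (str v).length < N ∧ ¬ Ok (FU (str j) x) (str v) (B k (str v).length false)
      (S k (str v).length false) (str v ∈ L)

theorem prim_mem {B S : ℕ → ℕ → Bool → ℕ} (hBS : Bds B S) {h : ℕ → Bool}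
    (hh : Poly (fun x : List Bool => h x.length)) {L : Set (List Bool)} (hL : Cls B S h L) :
    PrimrecPred (fun x => x ∈ L) := by
  obtain ⟨k, V, hV, hok⟩ := hL
  have hVp : Primrec V := Pool.Agent.H639R2.NTP.polyTime_primrec hV
  have hl : Primrec (fun x : List Bool => x.length) := Primrec.list_length
  have h1 : PrimrecRel (fun (w x : List Bool) => V (pairBits x w) = [true]) :=
    PrimrecRel.comp Primrec.eq (hVp.comp (prim_pair Primrec.snd Primrec.fst))
      (Primrec.const [true])
  have h2 : Primrec (fun x : List Bool => B k x.length (h x.length)) :=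
    hBS.pB.comp (Primrec.pair (Primrec.const k) (Primrec.pair hl (prim_bool hh)))
  have h3 := h1.exists_mem_list.comp (primrec_exL.comp h2) Primrec.id
  exact h3.of_eq fun x => (hok x).iff.symm

theorem prim_GB {B S : ℕ → ℕ → Bool → ℕ} (hBS : Bds B S) {L : Set (List Bool)}
    (hL : PrimrecPred (fun x => x ∈ L)) : PrimrecRel (GB B S L) := by
  unfold GB
  -- v, (k, j, x, N)
  have h1 : PrimrecRel (fun (v : ℕ) (q : ℕ × ℕ × ℕ × ℕ) => q.2.2.1 ≤ (str v).length ∧
      (str v).length < q.2.2.2 ∧ ¬ Ok (FU (str q.2.1) q.2.2.1) (str v)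
        (B q.1 (str v).length false) (S q.1 (str v).length false) (str v ∈ L)) := by
    have p1 : Primrec (fun p : ℕ × (ℕ × ℕ × ℕ × ℕ) => str p.1) := prim_strN.comp Primrec.fst
    have p2 : Primrec (fun p : ℕ × (ℕ × ℕ × ℕ × ℕ) => p.2.2.2.1) :=
      Primrec.fst.comp (Primrec.snd.comp (Primrec.snd.comp Primrec.snd))
    have p3 : Primrec (fun p : ℕ × (ℕ × ℕ × ℕ × ℕ) => p.2.2.2.2) :=
      Primrec.snd.comp (Primrec.snd.comp (Primrec.snd.comp Primrec.snd))
    have p4 : Primrec (fun p : ℕ × (ℕ × ℕ × ℕ × ℕ) => p.2.1) := Primrec.fst.comp Primrec.snd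
    have p5 : Primrec (fun p : ℕ × (ℕ × ℕ × ℕ × ℕ) => p.2.2.1) :=
      Primrec.fst.comp (Primrec.snd.comp Primrec.snd)
    have pl := Primrec.list_length.comp p1
    have pBB : Primrec (fun p : ℕ × (ℕ × ℕ × ℕ × ℕ) => B p.2.1 (str p.1).length false) :=
      hBS.pB.comp (Primrec.pair p4 (Primrec.pair pl (Primrec.const false)))
    have pSS : Primrec (fun p : ℕ × (ℕ × ℕ × ℕ × ℕ) => S p.2.1 (str p.1).length false) :=
      hBS.pS.comp (Primrec.pair p4 (Primrec.pair pl (Primrec.const false)))
    exact (PrimrecRel.comp Primrec.nat_le p2 pl).and ((PrimrecRel.comp Primrec.nat_lt pl p3).and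
      (prim_Ok (prim_strN.comp p5) p2 p1 pBB pSS (hL.comp p1)).not)
  have h2 : PrimrecRel (fun (k : ℕ) (q : ℕ × ℕ × ℕ) => ∃ v ∈ List.range q.2.2,
      q.2.1 ≤ (str v).length ∧ (str v).length < q.2.2 ∧ ¬ Ok (FU (str q.1) q.2.1) (str v)
        (B k (str v).length false) (S k (str v).length false) (str v ∈ L)) :=
    (h1.exists_mem_list).comp (f := fun q : ℕ × ℕ × ℕ × ℕ => List.range q.2.2.2)
      (g := fun q => q)
      (Primrec.list_range.comp (Primrec.snd.comp (Primrec.snd.comp Primrec.snd))) Primrec.id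
  have h3 : PrimrecRel (fun (j : ℕ) (p : ℕ × ℕ) => ∀ k ∈ List.range p.1, ∃ v ∈ List.range p.2,
      p.1 ≤ (str v).length ∧ (str v).length < p.2 ∧ ¬ Ok (FU (str j) p.1) (str v)
        (B k (str v).length false) (S k (str v).length false) (str v ∈ L)) :=
    (h2.forall_mem_list).comp (f := fun q : ℕ × ℕ × ℕ => List.range q.2.1)
      (g := fun q => q) (Primrec.list_range.comp (Primrec.fst.comp Primrec.snd)) Primrec.id
  exact (h3.forall_mem_list).comp (f := fun p : ℕ × ℕ => List.range p.1) (g := fun p => p)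
    (Primrec.list_range.comp Primrec.fst) Primrec.id

theorem exists_GB {B S : ℕ → ℕ → Bool → ℕ} {L : Set (List Bool)}
    (hL : ¬ Cls B S (fun _ => false) L) (x : ℕ) : ∃ N, GB B S L x N := by
  have h1 : ∀ j k : ℕ, ∃ v : ℕ, x ≤ (str v).length ∧ ¬ Ok (FU (str j) x) (str v)
      (B k (str v).length false) (S k (str v).length false) (str v ∈ L) := by
    intro j k
    by_contra hcon
    push Not at hcon
    refine hL (cls_patch (k := k) (m := x) (polyTime_of_poly' (poly_FU (str j) x))
      fun y hy => ?_)
    have h2 := hcon (Encodable.encode y)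
    rw [str_encode] at h2
    exact h2 hy
  have h2 : ∀ᶠ N in Filter.atTop, ∀ j ∈ (List.range x).toFinset, ∀ k ∈ (List.range x).toFinset,
      ∃ v ∈ List.range N, x ≤ (str v).length ∧ (str v).length < N ∧
        ¬ Ok (FU (str j) x) (str v) (B k (str v).length false) (S k (str v).length false)
          (str v ∈ L) := by
    rw [Filter.eventually_all_finset]
    intro j _
    rw [Filter.eventually_all_finset]
    intro k _
    obtain ⟨v, hv1, hv2⟩ := h1 j k
    filter_upwards [Filter.eventually_gt_atTop v, Filter.eventually_gt_atTop (str v).length]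
      with N hN1 hN2
    exact ⟨v, List.mem_range.2 hN1, hv1, hN2, hv2⟩
  obtain ⟨N, h4⟩ := h2.exists
  exact ⟨N, fun j hj k hk => h4 j (List.mem_toFinset.2 hj) k (List.mem_toFinset.2 hk)⟩

/-- The general theorem. -/
theorem universal {B S : ℕ → ℕ → Bool → ℕ} (hBS : Bds B S) {L : Set (List Bool)}
    (hL1 : Cls B S (fun _ => true) L) (hL0 : ¬ Cls B S (fun _ => false) L)
    (I : Type) [Countable I] [PartialOrder I] :
    ∃ h : I → ℕ → Bool, (∀ i, Poly (fun x : List Bool => h i x.length)) ∧
      (∀ i j, i ≤ j → ∀ n, h i n = true → h j n = true) ∧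
      (∀ i, Cls B S (h i) {x | x ∈ L ∧ h i x.length = true}) ∧
      ∀ i j, ¬ i ≤ j → ¬ Cls B S (h j) {x | x ∈ L ∧ h i x.length = true} := by
  have hm := prim_mem hBS (NPC.Poly.const true) hL1
  obtain ⟨h, h1, h2, h3⟩ := clock (prim_GB hBS hm) (exists_GB hL0) I
  refine ⟨h, h1, h2, fun i => cls_mask (h1 i) hL1, fun i j hij hcl => ?_⟩
  obtain ⟨k, V, hV, hok⟩ := hcl
  obtain ⟨z, k0, hz⟩ := exists_FU hV
  obtain ⟨x, N, hx, hG, hs⟩ := h3 i j hij (max k0 (max (k + 1) (Encodable.encode z + 1)))
  obtain ⟨v, _, hv1, hv2, hv3⟩ := hG (Encodable.encode z) (List.mem_range.2 (by omega)) k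
    (List.mem_range.2 (by omega))
  refine hv3 ?_
  rw [str_encode]
  have h4 := hok (str v)
  obtain ⟨h5, h6⟩ := hs _ hv1 hv2
  rw [h6] at h4
  refine h4.congr (by simp [h5]) fun w _ => ?_
  rw [hz x _ (by omega) (by unfold pairBits; simp)]

end Pool.Agent.L0h33.LD
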