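import Pool.Agent.L0h33.LD.Main

/-!
# Bounded nondeterminism
-/

set_option autoImplicit false

namespace Pool.Agent.L0h33.LD

open Function Pool.Agent.NPC Pool.Agent.H593R3.FBC Pool.Agent.H660R2.NX
open Pool.Agent.H620R2.Gauge (IsP)
open Pool.Agent.Y600.FB (chi)
open Pool.Agent.H639R2.NTP (exists_pow_bound)

/-- The class `NP_g` of Kintala and Fischer: polynomial time with `O(g (n))` guessed bits, that is,
with at most `g (n)` nondeterministic steps, each with a bounded number of choices. -/
def NPg (g : ℕ → ℕ) (L : Set (List Bool)) : Prop :=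
  ∃ (V : List Bool → List Bool) (c : ℕ), PolyTime V ∧
    ∀ x, x ∈ L ↔ ∃ w : List Bool, w.length ≤ c * g x.length ∧ V (pairBits x w) = [true]

/-- The bounds. -/
def BG (f g : ℕ → ℕ) (k n : ℕ) (b : Bool) : ℕ := k * (if b = true then g n else f n)

theorem unpair_nil : unpair [] = ([], []) := by
  unfold unpair
  rfl

attribute [local irreducible] unpair

theorem bds_BG {f g : ℕ → ℕ} (hf : Nice f) (hg : Nice g) (hfg : ∀ n, f n ≤ g n) :
    Bds (BG f g) (BG f g) := by
  have h1 : Primrec (fun p : ℕ × ℕ × Bool => BG f g p.1 p.2.1 p.2.2) :=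
    Primrec.nat_mul.comp Primrec.fst (Primrec.ite (PrimrecRel.comp Primrec.eq
      (Primrec.snd.comp Primrec.snd) (Primrec.const true))
      ((nice_prim hg).comp (Primrec.fst.comp Primrec.snd))
      ((nice_prim hf).comp (Primrec.fst.comp Primrec.snd)))
  have h2 : ∀ k n, BG f g k n false ≤ BG f g k n true := fun k n => by
    simpa [BG] using Nat.mul_le_mul_left k (hfg n)
  refine ⟨h1, h1, fun k b => ?_, h2, h2⟩
  cases b with
  | true => exact ((UPoly.const k).mul (nice_upoly hg)).congr fun x => by simp [BG]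
  | false => exact ((UPoly.const k).mul (nice_upoly hf)).congr fun x => by simp [BG]

theorem ok_iff {V : List Bool → List Bool} {x : List Bool} {r : ℕ} {P : Prop} :
    Ok V x r r P ↔ (P ↔ ∃ w ∈ exL r, V (pairBits x w) = [true]) := by
  constructor
  · exact fun h => h.iff
  · intro h
    rw [← acc_pos] at h
    refine ⟨fun hP => ?_, fun hP => ?_⟩
    · exact Nat.le_mul_of_pos_right _ (Nat.pos_of_ne_zero (h.1 hP))
    · by_contra h2
      exact hP (h.2 h2)

/-- Guessed strings of bounded length and of fixed length. -/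
theorem cls_BG {f g : ℕ → ℕ} {h : ℕ → Bool} (hf : Nice f) (hg : Nice g)
    (hh : Poly (fun x : List Bool => h x.length)) {L : Set (List Bool)} :
    Cls (BG f g) (BG f g) h L ↔ NPg (fun n => B2 f g 0 n (h n)) L := by
  have hB : Nice (fun n => B2 f g 0 n (h n)) := nice_B2 hf hg hh
  have hBB : ∀ k n, BG f g k n (h n) = k * B2 f g 0 n (h n) := fun k n => rfl
  have h0 : Poly (fun y : List Bool => unpair y) := poly_unpair
  have h1 : Poly (fun y : List Bool => (unpair y).1) := h0.fst
  have h2 : Poly (fun y : List Bool => (unpair y).2) := h0.snd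
  constructor
  · rintro ⟨k, V, hV, hok⟩
    set W : List Bool → List Bool := fun y =>
      if (unpair y).2.length = k * B2 f g 0 (unpair y).1.length (h (unpair y).1.length) then V y
      else [] with hW
    have hWp : Poly W :=
      NPC.Poly.ite (NPC.Poly.decide_eq (NPC.Poly.length h2)
        ((UPoly.const k).mul ((nice_upoly hB).comp h1)).toPoly) (poly_of_polyTime hV)
        (NPC.Poly.const [])
    refine ⟨W, k, polyTime_of_poly' hWp, fun x => ?_⟩
    rw [ok_iff.1 (hok x), hBB]
    constructor
    · rintro ⟨w, hw, hV⟩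
      have h3 := mem_exL.1 hw
      refine ⟨w, h3.le, ?_⟩
      rw [hW]
      simp only
      rw [unpair_pairBits]
      simp only [h3, if_true]
      exact hV
    · rintro ⟨w, hw, hV⟩
      rw [hW] at hV
      simp only at hV
      rw [unpair_pairBits] at hV
      by_cases h3 : w.length = k * B2 f g 0 x.length (h x.length)
      · simp only [h3, if_true] at hV
        exact ⟨w, mem_exL.2 h3, hV⟩
      · simp only [h3, if_false] at hV
        simp at hV
  · rintro ⟨V, c, hV, hVL⟩
    set W : List Bool → List Bool := fun y =>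
      if (unpair (unpair y).2).1.length ≤
        c * B2 f g 0 (unpair y).1.length (h (unpair y).1.length) then
        V (pairBits (unpair y).1 (unpair (unpair y).2).1) else [] with hW
    have h3 : Poly (fun y : List Bool => (unpair (unpair y).2).1) := h1.comp h2
    have hWp : Poly W :=
      NPC.Poly.ite (NPC.Poly.decide_le (NPC.Poly.length h3)
        ((UPoly.const c).mul ((nice_upoly hB).comp h1)).toPoly)
        ((poly_of_polyTime hV).comp (poly_pairBits h1 h3)) (NPC.Poly.const [])
    refine ⟨2 * c + 1, W, polyTime_of_poly' hWp, fun x => ?_⟩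
    rw [hBB, ok_iff, hVL]
    constructor
    · rintro ⟨w, hw, hV⟩
      rcases Nat.eq_zero_or_pos (B2 f g 0 x.length (h x.length)) with h4 | h4
      · simp only [h4, mul_zero, Nat.le_zero, List.length_eq_zero_iff] at hw
        subst hw
        refine ⟨[], mem_exL.2 (by simp [h4]), ?_⟩
        rw [hW]
        simp only
        rw [unpair_pairBits, unpair_nil]
        simpa using hV
      · have h5 : 2 * w.length + 1 ≤ (2 * c + 1) * B2 f g 0 x.length (h x.length) := by
          nlinarith
        obtain ⟨d, hd⟩ := Nat.exists_eq_add_of_le h5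
        refine ⟨pairBits w (List.replicate d false), mem_exL.2 ?_, ?_⟩
        · rw [length_pairBits, List.length_replicate]
          exact hd.symm
        · rw [hW]
          simp only
          rw [unpair_pairBits]
          simp only
          rw [unpair_pairBits]
          simp only [hw, if_true]
          exact hV
    · rintro ⟨w, _, hV⟩
      rw [hW] at hV
      simp only at hV
      rw [unpair_pairBits] at hV
      by_cases h4 : (unpair w).1.length ≤ c * B2 f g 0 x.length (h x.length)
      · simp only [h4, if_true] at hV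
        exact ⟨_, h4, hV⟩
      · simp only [h4, if_false] at hV
        simp at hV

theorem npg_two {f g : ℕ → ℕ} (hf : Nice f) (hg : Nice g) {L : Set (List Bool)} (b : Bool) :
    Cls (BG f g) (BG f g) (fun _ => b) L ↔ NPg (if b = true then g else f) L := by
  rw [cls_BG hf hg (NPC.Poly.const b)]
  have : (fun n => B2 f g 0 n b) = if b = true then g else f := by
    funext n
    unfold B2
    cases b <;> rfl
  rw [this]

/-- More guessed bits. -/
theorem npg_mono {g g' : ℕ → ℕ} (hg : Nice g) (h : ∀ n, g n ≤ g' n) {L : Set (List Bool)}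
    (hL : NPg g L) : NPg g' L := by
  obtain ⟨V, c, hV, hVL⟩ := hL
  have h0 : Poly (fun y : List Bool => unpair y) := poly_unpair
  have h1 : Poly (fun y : List Bool => (unpair y).1) := h0.fst
  have h2 : Poly (fun y : List Bool => (unpair y).2) := h0.snd
  set W : List Bool → List Bool := fun y =>
    if (unpair y).2.length ≤ c * g (unpair y).1.length then V y else [] with hW
  have hWp : Poly W := NPC.Poly.ite (NPC.Poly.decide_le (NPC.Poly.length h2)
      ((UPoly.const c).mul ((nice_upoly hg).comp h1)).toPoly) (poly_of_polyTime hV)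
      (NPC.Poly.const [])
  refine ⟨W, c, polyTime_of_poly' hWp, fun x => ?_⟩
  rw [hVL]
  constructor
  · rintro ⟨w, hw, hV⟩
    refine ⟨w, hw.trans (Nat.mul_le_mul_left _ (h _)), ?_⟩
    rw [hW]
    simp only
    rw [unpair_pairBits]
    simp only [hw, if_true]
    exact hV
  · rintro ⟨w, _, hV⟩
    rw [hW] at hV
    simp only at hV
    rw [unpair_pairBits] at hV
    by_cases h4 : w.length ≤ c * g x.length
    · simp only [h4, if_true] at hV
      exact ⟨_, h4, hV⟩
    · simp only [h4, if_false] at hV
      simp at hV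

theorem npg_inNP {g : ℕ → ℕ} (hg : Nice g) {L : Set (List Bool)} (h : NPg g L) : InNP L := by
  obtain ⟨p, hp⟩ := nice_le hg
  obtain ⟨V, c, hV, hVL⟩ := npg_mono hg hp h
  exact ⟨V, Polynomial.C c * p, hV, fun x => by rw [hVL]; simp⟩

theorem npg_of_inP {L : Set (List Bool)} (h : InP L) (g : ℕ → ℕ) : NPg g L := by
  obtain ⟨V, hV, hVL⟩ := h
  have h0 : Poly (fun y : List Bool => unpair y) := poly_unpair
  have h1 : Poly (fun y : List Bool => (unpair y).1) := h0.fst
  refine ⟨fun y => V (unpair y).1, 0, polyTime_of_poly' ((poly_of_polyTime hV).comp h1),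
    fun x => ?_⟩
  rw [hVL]
  constructor
  · intro hx
    refine ⟨[], by simp, ?_⟩
    simp only
    rw [unpair_pairBits]
    exact hx
  · rintro ⟨w, _, hw⟩
    simp only at hw
    rw [unpair_pairBits] at hw
    exact hw

/-- **Between two different classes `NP_f` and `NP_g` there is every countable order.** -/
theorem guess_interval {f g : ℕ → ℕ} (hf : Nice f) (hg : Nice g) (hfg : ∀ n, f n ≤ g n)
    (hne : ∃ L, NPg g L ∧ ¬ NPg f L) (I : Type) [Countable I] [PartialOrder I] :
    ∃ (γ : I → ℕ → ℕ) (L : I → Set (List Bool)),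
      (∀ i, Nice (γ i) ∧ NPg (γ i) (L i) ∧ ∀ n, γ i n = f n ∨ γ i n = g n) ∧
      ∀ i j, (i ≤ j → (∀ n, γ i n ≤ γ j n) ∧ ∀ A, NPg (γ i) A → NPg (γ j) A) ∧
        (¬ i ≤ j → ¬ NPg (γ j) (L i)) := by
  obtain ⟨L, hL1, hL0⟩ := hne
  have e1 : Cls (BG f g) (BG f g) (fun _ => true) L := (npg_two hf hg true).2 hL1
  have e0 : ¬ Cls (BG f g) (BG f g) (fun _ => false) L := fun h =>
    hL0 ((npg_two hf hg false).1 h)
  obtain ⟨h, h1, h2, h3, h4⟩ := universal (bds_BG hf hg hfg) e1 e0 I
  refine ⟨fun i n => B2 f g 0 n (h i n), fun i => {x | x ∈ L ∧ h i x.length = true},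
    fun i => ⟨nice_B2 hf hg (h1 i), (cls_BG hf hg (h1 i)).1 (h3 i), fun n => ?_⟩, fun i j =>
    ⟨fun hij => ⟨B2_mono hfg (h2 i j hij), fun A hA => npg_mono (nice_B2 hf hg (h1 i))
      (B2_mono hfg (h2 i j hij)) hA⟩,
      fun hij hc => h4 i j hij ((cls_BG hf hg (h1 j)).2 hc)⟩⟩
  unfold B2
  by_cases hb : h i n = true
  · simp [hb]
  · simp [hb]

end Pool.Agent.L0h33.LD
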