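import Pool.Agent.L0h33.LD.Red

/-!
# Each proper inclusion between `P`, `RP` and `NP` contains every countable order
-/

set_option autoImplicit false

namespace Pool.Agent.L0h33.LD

open Function Pool.Agent.NPC Pool.Agent.H593R3.FBC Pool.Agent.H660R2.NX
open Pool.Agent.H620R2.Gauge (IsP)
open Pool.Agent.Y600.FB (chi)
open Pool.Agent.H639R2.NTP (exists_pow_bound)

attribute [local irreducible] unpair

theorem length_pairBits (x w : List Bool) :
    (pairBits x w).length = 2 * x.length + 1 + w.length := by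
  have h1 : (x.flatMap (fun b => [true, b])).length = 2 * x.length := by
    induction x with
    | nil => rfl
    | cons a x ih =>
      rw [List.flatMap_cons, List.length_append, ih]
      simp
      omega
  unfold pairBits
  rw [List.length_append, h1]
  simp
  omega

/-! ### Nice functions -/

theorem nice_upoly {g : ℕ → ℕ} (hg : Nice g) : UPoly (fun x : List Bool => g x.length) := by
  have h1 : Poly (fun x : List Bool => List.replicate (g x.length) true) := poly_of_polyTime hg
  exact (UPoly.length h1).congr fun x => by simp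

theorem nice_of_upoly {g : ℕ → ℕ} (hg : UPoly (fun x : List Bool => g x.length)) : Nice g := by
  refine polyTime_of_poly' ?_
  have h1 : Poly (fun x : List Bool => (List.replicate (g x.length) ()).map (fun _ => true)) :=
    NPC.Poly.map (F := fun _ _ => true) hg (NPC.Poly.const true)
  exact h1.congr fun x => by simp

theorem nice_prim {g : ℕ → ℕ} (hg : Nice g) : Primrec g := by
  have h1 : Primrec (fun x : List Bool => g x.length) := prim_len (nice_upoly hg)
  exact (h1.comp (Pool.Agent.H639R2.NTP.C5.primrec_replicate)).of_eq fun n => by simp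

theorem nice_id : Nice (fun n => n) := nice_of_upoly (UPoly.length NPC.Poly.id)

theorem nice_const (c : ℕ) : Nice (fun _ => c) := nice_of_upoly (UPoly.const c)

theorem nice_poly (p : Polynomial ℕ) : Nice (fun n => p.eval n) :=
  nice_of_upoly ((UPoly.length NPC.Poly.id).eval p)

theorem nice_le {g : ℕ → ℕ} (hg : Nice g) : ∃ p : Polynomial ℕ, ∀ n, g n ≤ p.eval n := by
  obtain ⟨p, hp⟩ := NPC.Poly.sz_le (poly_of_polyTime hg)
  refine ⟨p.comp (4 * Polynomial.X + 1), fun n => ?_⟩
  have h1 := hp (List.replicate n true)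
  have h2 := length_lt_sz (List.replicate (g (List.replicate n true).length) true)
  have h3 := sz_listBool_le (List.replicate n true)
  rw [List.length_replicate] at h3
  simp only [List.length_replicate] at h1 h2
  have h4 : p.eval (sz (List.replicate n true)) ≤ p.eval (4 * n + 1) :=
    Pool.Agent.NPC.eval_mono p h3
  have h5 : (p.comp (4 * Polynomial.X + 1)).eval n = p.eval (4 * n + 1) := by simp
  omega

/-! ### More random bits -/

theorem rnd_mono {r r' s s' : ℕ → ℕ} (hr : Nice r) (hrr : ∀ n, r n ≤ r' n)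
    (hss : ∀ n, s n ≤ s' n) {L : Set (List Bool)} (h : Rnd r s L) : Rnd r' s' L := by
  obtain ⟨V, hV, hok⟩ := h
  set W : List Bool → List Bool := fun y => V (pairBits (unpair y).1
    ((unpair y).2.take (r (unpair y).1.length))) with hW
  have hWp : Poly W := by
    have h0 : Poly (fun y : List Bool => unpair y) := poly_unpair
    have h1 : Poly (fun y : List Bool => (unpair y).1) := h0.fst
    have h2 : Poly (fun y : List Bool => (unpair y).2) := h0.snd
    exact (poly_of_polyTime hV).comp
      (poly_pairBits h1 (poly_take h2 ((nice_upoly hr).comp h1)))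
  refine ⟨W, polyTime_of_poly' hWp, fun x => ?_⟩
  have h1 : Ok V x (r x.length) (s x.length) (x ∈ L) := hok x
  exact h1.more (hrr _) (hss _) fun w hw => by
    rw [hW]
    simp only
    rw [unpair_pairBits]

/-- Random bits as in `Cls`. -/
theorem rnd_iff (r s : ℕ → ℕ) (L : Set (List Bool)) :
    Rnd r s L ↔ Cls (fun _ n _ => r n) (fun _ n _ => s n) (fun _ => true) L := by
  constructor
  · rintro ⟨V, hV, hok⟩
    exact ⟨0, V, hV, hok⟩
  · rintro ⟨k, V, hV, hok⟩
    exact ⟨V, hV, hok⟩

/-! ### Intervals -/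

/-- The bounds of an interval. -/
def B2 (r r' : ℕ → ℕ) (_ n : ℕ) (b : Bool) : ℕ := if b = true then r' n else r n

theorem bds_two {r r' s s' : ℕ → ℕ} (hr : Nice r) (hr' : Nice r') (hs : Nice s) (hs' : Nice s')
    (hrr : ∀ n, r n ≤ r' n) (hss : ∀ n, s n ≤ s' n) : Bds (B2 r r') (B2 s s') where
  pB := Primrec.ite (PrimrecRel.comp Primrec.eq (Primrec.snd.comp Primrec.snd)
      (Primrec.const true)) ((nice_prim hr').comp (Primrec.fst.comp Primrec.snd))
      ((nice_prim hr).comp (Primrec.fst.comp Primrec.snd))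
  pS := Primrec.ite (PrimrecRel.comp Primrec.eq (Primrec.snd.comp Primrec.snd)
      (Primrec.const true)) ((nice_prim hs').comp (Primrec.fst.comp Primrec.snd))
      ((nice_prim hs).comp (Primrec.fst.comp Primrec.snd))
  uB := fun k b => by
    cases b with
    | true => exact nice_upoly hr'
    | false => exact nice_upoly hr
  mB := fun k n => by simpa [B2] using hrr n
  mS := fun k n => by simpa [B2] using hss n

theorem cls_two {r r' s s' : ℕ → ℕ} {h : ℕ → Bool} {L : Set (List Bool)} :
    Cls (B2 r r') (B2 s s') h L ↔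
      Rnd (fun n => B2 r r' 0 n (h n)) (fun n => B2 s s' 0 n (h n)) L := by
  constructor
  · rintro ⟨k, V, hV, hok⟩
    exact ⟨V, hV, hok⟩
  · rintro ⟨V, hV, hok⟩
    exact ⟨0, V, hV, hok⟩

theorem nice_B2 {r r' : ℕ → ℕ} (hr : Nice r) (hr' : Nice r') {h : ℕ → Bool}
    (hh : Poly (fun x : List Bool => h x.length)) : Nice (fun n => B2 r r' 0 n (h n)) := by
  refine nice_of_upoly ?_
  exact UPoly.ite hh (nice_upoly hr') (nice_upoly hr)

theorem B2_mono {r r' : ℕ → ℕ} (hrr : ∀ n, r n ≤ r' n) {h h' : ℕ → Bool}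
    (hle : ∀ n, h n = true → h' n = true) (n : ℕ) : B2 r r' 0 n (h n) ≤ B2 r r' 0 n (h' n) := by
  cases h1 : h n with
  | true => rw [hle n h1]
  | false =>
    cases h2 : h' n with
    | true => exact hrr n
    | false => exact le_rfl

/-- **Between two different classes `RP[r, s]` and `RP[r', s']` there is every countable
order.** -/
theorem interval {r r' s s' : ℕ → ℕ} (hr : Nice r) (hr' : Nice r') (hs : Nice s) (hs' : Nice s')
    (hrr : ∀ n, r n ≤ r' n) (hss : ∀ n, s n ≤ s' n)
    (hne : ∃ L, Rnd r' s' L ∧ ¬ Rnd r s L) (I : Type) [Countable I] [PartialOrder I] :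
    ∃ (ρ σ : I → ℕ → ℕ) (L : I → Set (List Bool)),
      (∀ i, Nice (ρ i) ∧ Nice (σ i) ∧ Rnd (ρ i) (σ i) (L i) ∧
        ∀ n, (ρ i n = r n ∧ σ i n = s n) ∨ (ρ i n = r' n ∧ σ i n = s' n)) ∧
      ∀ i j, (i ≤ j → ∀ n, ρ i n ≤ ρ j n ∧ σ i n ≤ σ j n) ∧
        (¬ i ≤ j → ¬ Rnd (ρ j) (σ j) (L i)) := by
  obtain ⟨L, hL1, hL0⟩ := hne
  have e1 : Cls (B2 r r') (B2 s s') (fun _ => true) L := cls_two.2 (by simpa [B2] using hL1)
  have e0 : ¬ Cls (B2 r r') (B2 s s') (fun _ => false) L := fun h =>
    hL0 (by simpa [B2] using cls_two.1 h)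
  obtain ⟨h, h1, h2, h3, h4⟩ := universal (bds_two hr hr' hs hs' hrr hss) e1 e0 I
  refine ⟨fun i n => B2 r r' 0 n (h i n), fun i n => B2 s s' 0 n (h i n),
    fun i => {x | x ∈ L ∧ h i x.length = true}, fun i => ⟨nice_B2 hr hr' (h1 i),
      nice_B2 hs hs' (h1 i), cls_two.1 (h3 i), fun n => ?_⟩, fun i j => ⟨fun hij n =>
      ⟨B2_mono hrr (h2 i j hij) n, B2_mono hss (h2 i j hij) n⟩, fun hij hc =>
      h4 i j hij (cls_two.2 hc)⟩⟩
  unfold B2
  by_cases hb : h i n = true
  · simp [hb]
  · simp [hb]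

/-! ### Padding -/

/-- The padded language. -/
def padL (p : Polynomial ℕ) (L : Set (List Bool)) : Set (List Bool) :=
  {y | (unpair y).1 ∈ L ∧ p.eval (unpair y).1.length ≤ y.length}

/-- The padding. -/
def padF (p : Polynomial ℕ) (x : List Bool) : List Bool :=
  pairBits x (List.replicate (p.eval x.length) false)

theorem padF_length (p : Polynomial ℕ) (x : List Bool) :
    (padF p x).length = (2 * Polynomial.X + 1 + p).eval x.length := by
  unfold padF
  rw [length_pairBits, List.length_replicate]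
  simp

theorem padF_mem (p : Polynomial ℕ) (L : Set (List Bool)) (x : List Bool) :
    padF p x ∈ padL p L ↔ x ∈ L := by
  have h1 := padF_length p x
  simp only [Polynomial.eval_add, Polynomial.eval_mul, Polynomial.eval_ofNat, Polynomial.eval_X,
    Polynomial.eval_one] at h1
  have h2 : p.eval x.length ≤ (padF p x).length := by omega
  have h3 : unpair (padF p x) = (x, List.replicate (p.eval x.length) false) := by
    unfold padF
    exact unpair_pairBits _ _
  unfold padL
  simp only [Set.mem_setOf_eq, h3, h2, and_true]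

theorem poly_padF (p : Polynomial ℕ) : Poly (padF p) := by
  unfold padF
  refine poly_pairBits NPC.Poly.id ?_
  have h1 : Poly (fun x : List Bool => (List.replicate (p.eval x.length) ()).map
      (fun _ => false)) :=
    NPC.Poly.map (F := fun _ _ => false) ((UPoly.length NPC.Poly.id).eval p)
      (NPC.Poly.const false)
  exact h1.congr fun x => by simp

/-- A machine for the padded language. -/
theorem pad_mach {p : Polynomial ℕ} {L : Set (List Bool)} {V : List Bool → List Bool}
    (hV : PolyTime V) {s : ℕ → ℕ} (hok : ∀ x, Ok V x (p.eval x.length) (s x.length) (x ∈ L)) :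
    ∃ W : List Bool → List Bool, PolyTime W ∧ ∀ (y : List Bool) (r t : ℕ), y.length ≤ r →
      (p.eval (unpair y).1.length ≤ y.length → s (unpair y).1.length ≤ t) →
      Ok W y r t (y ∈ padL p L) := by
  set W : List Bool → List Bool := fun v =>
    if p.eval (unpair (unpair v).1).1.length ≤ (unpair v).1.length then
      V (pairBits (unpair (unpair v).1).1
        ((unpair v).2.take (p.eval (unpair (unpair v).1).1.length))) else [] with hW
  have hWp : Poly W := by
    have h0 : Poly (fun y : List Bool => unpair y) := poly_unpair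
    have h1 : Poly (fun y : List Bool => (unpair y).1) := h0.fst
    have h2 : Poly (fun y : List Bool => (unpair y).2) := h0.snd
    have h3 : Poly (fun y : List Bool => (unpair (unpair y).1).1) := h1.comp h1
    have hu : UPoly (fun y : List Bool => p.eval (unpair (unpair y).1).1.length) :=
      (UPoly.length h3).eval p
    exact NPC.Poly.ite (NPC.Poly.decide_le hu.toPoly (NPC.Poly.length h1))
      ((poly_of_polyTime hV).comp (poly_pairBits h3 (poly_take h2 hu))) (NPC.Poly.const [])
  refine ⟨W, polyTime_of_poly' hWp, fun y r t hr ht => ?_⟩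
  by_cases h1 : p.eval (unpair y).1.length ≤ y.length
  · have h2 : (unpair y).1 ∈ L ↔ y ∈ padL p L := by
      unfold padL
      simp [h1]
    have h3 := (hok (unpair y).1).more (V' := W) (x' := y) (h1.trans hr) (ht h1) (by
      intro w _
      rw [hW]
      simp only
      rw [unpair_pairBits]
      simp only [h1, if_true])
    unfold Ok at h3 ⊢
    rw [← h2]
    exact h3
  · refine Ok.const fun w => ?_
    rw [hW]
    simp only
    rw [unpair_pairBits]
    simp only [h1, if_false]
    unfold padL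
    simp [h1]

/-- Undoing the padding. -/
theorem unpad {p q : Polynomial ℕ} {L : Set (List Bool)} {s : ℕ}
    (h : Rnd (fun n => q.eval n) (fun _ => s) (padL p L)) :
    Rnd (fun n => (q.comp (2 * Polynomial.X + 1 + p)).eval n) (fun _ => s) L := by
  obtain ⟨V, hV, hok⟩ := h
  set W : List Bool → List Bool := fun v => V (pairBits (padF p (unpair v).1) (unpair v).2)
    with hW
  have hWp : Poly W := by
    have h0 : Poly (fun y : List Bool => unpair y) := poly_unpair
    have h1 : Poly (fun y : List Bool => (unpair y).1) := h0.fst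
    have h2 : Poly (fun y : List Bool => (unpair y).2) := h0.snd
    exact (poly_of_polyTime hV).comp (poly_pairBits ((poly_padF p).comp h1) h2)
  refine ⟨W, polyTime_of_poly' hWp, fun x => ?_⟩
  have h1 : Ok V (padF p x) (q.eval (padF p x).length) s (padF p x ∈ padL p L) := hok (padF p x)
  rw [padF_length] at h1
  have h2 := h1.congr (V' := W) (x' := x) (padF_mem p L x) (by
    intro w _
    rw [hW]
    simp only
    rw [unpair_pairBits])
  have h3 : (q.comp (2 * Polynomial.X + 1 + p)).eval x.length =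
      q.eval ((2 * Polynomial.X + 1 + p).eval x.length) := Polynomial.eval_comp
  rw [← h3] at h2
  exact h2

theorem inP_reduces {L L' : Set (List Bool)} (h : Reduces L L') (hL : InP L') : InP L := by
  obtain ⟨f, hf, hfL⟩ := h
  obtain ⟨V, hV, hVL⟩ := hL
  refine ⟨fun x => V (f x), ?_, fun x => by rw [hfL, hVL]⟩
  exact polyTime_of_poly' ((poly_of_polyTime hV).comp (poly_of_polyTime hf))

theorem reduces_pad (p : Polynomial ℕ) (L : Set (List Bool)) : Reduces L (padL p L) :=
  ⟨padF p, polyTime_of_poly' (poly_padF p), fun x => (padF_mem p L x).symm⟩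

/-- `P` is contained in all classes. -/
theorem rnd_of_inP {L : Set (List Bool)} (h : InP L) (r s : ℕ → ℕ) : Rnd r s L := by
  obtain ⟨V, hV, hVL⟩ := h
  have h0 : Poly (fun y : List Bool => unpair y) := poly_unpair
  have h1 : Poly (fun y : List Bool => (unpair y).1) := h0.fst
  refine ⟨fun y => V (unpair y).1, polyTime_of_poly' ((poly_of_polyTime hV).comp h1),
    fun x => ?_⟩
  have h2 : Ok (fun y => V (unpair y).1) x (r x.length) (s x.length) (x ∈ L) := by
    refine Ok.const fun w => ?_
    rw [unpair_pairBits]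
    exact (hVL x).symm
  exact h2

theorem isP_self (L : Set (List Bool)) : IsP (chi L) L :=
  Pool.Agent.Y600.PPM.t_RED4 L L ⟨id, polyTime_of_poly' NPC.Poly.id, fun _ => Iff.rfl⟩

/-! ### `P` and `RP` -/

theorem inRP_of {g : ℕ → ℕ} (hg : Nice g) {L : Set (List Bool)}
    (h : Rnd g (fun _ => 1) L) : InRP L := by
  obtain ⟨p, hp⟩ := nice_le hg
  exact ⟨p, rnd_mono hg hp (fun _ => le_rfl) h⟩

/-- The dichotomy for `P` and `RP`. -/
theorem p_rp : (∃ L, InRP L ∧ ¬ InP L) ↔ ∀ (I : Type) [Countable I] [PartialOrder I],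
    ∃ (g : I → ℕ → ℕ) (L : I → Set (List Bool)),
      (∀ i, Nice (g i) ∧ (∀ n, g i n ≤ n) ∧ Rnd (g i) (fun _ => 1) (L i) ∧ ¬ InP (L i) ∧
        ∃ L', InRP L' ∧ ∀ A, Rnd (g i) (fun _ => 1) A → ¬ IsP (chi A) L') ∧
      ∀ i j, (i ≤ j → (∀ n, g i n ≤ g j n) ∧
          ∀ A, Rnd (g i) (fun _ => 1) A → Rnd (g j) (fun _ => 1) A) ∧
        (¬ i ≤ j → ∀ A, Rnd (g j) (fun _ => 1) A → ¬ IsP (chi A) (L i)) := by
  constructor
  · rintro ⟨L, ⟨p, hL⟩, hP⟩ I _ _
    obtain ⟨V, hV, hok⟩ := hL
    obtain ⟨W, hW, hWok⟩ := pad_mach (s := fun _ => 1) hV (p := p) (L := L) hok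
    have hr0 : Nice (fun _ => 0) := nice_const 0
    have hr1 : Nice (fun n => n) := nice_id
    have hs : Nice (fun _ => 1) := nice_const 1
    have hbd := bds_two hr0 hr1 hs hs (fun n => Nat.zero_le n) (fun _ => le_rfl)
    have e1 : Cls (B2 (fun _ => 0) (fun n => n)) (B2 (fun _ => 1) (fun _ => 1))
        (fun _ => true) (padL p L) := by
      refine ⟨0, W, hW, fun y => ?_⟩
      refine hWok y _ _ ?_ ?_
      · simp [B2]
      · simp [B2]
    have e0 : ¬ InP (padL p L) := fun h => hP (inP_reduces (reduces_pad p L) h)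
    have : Countable (WithBot (WithTop I)) := inferInstanceAs (Countable (Option (Option I)))
    obtain ⟨h, h1, h2, h3, h4⟩ := universalT hbd (fun k n => by simp [B2]) e1 e0
      (WithBot (WithTop I))
    let e : I → WithBot (WithTop I) := fun i => ((i : WithTop I) : WithBot (WithTop I))
    have he : ∀ i j, e i ≤ e j ↔ i ≤ j := by
      intro i j
      change ((i : WithTop I) : WithBot (WithTop I)) ≤ ((j : WithTop I) : WithBot (WithTop I)) ↔ _
      rw [WithBot.coe_le_coe, WithTop.coe_le_coe]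
    have hcl : ∀ (i : WithBot (WithTop I)) (A : Set (List Bool)),
        Rnd (fun n => B2 (fun _ => 0) (fun n => n) 0 n (h i n)) (fun _ => 1) A ↔
        Cls (B2 (fun _ => 0) (fun n => n)) (B2 (fun _ => 1) (fun _ => 1)) (h i) A := by
      intro i A
      rw [cls_two]
      have : (fun n => B2 (fun _ => 1) (fun _ => 1) 0 n (h i n)) = fun _ => 1 := by
        funext n
        unfold B2
        split_ifs <;> rfl
      rw [this]
    have hni : ∀ i, Nice (fun n => B2 (fun _ => 0) (fun n => n) 0 n (h i n)) := fun i =>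
      nice_B2 hr0 hr1 (h1 i)
    refine ⟨fun i n => B2 (fun _ => 0) (fun n => n) 0 n (h (e i) n),
      fun i => {x | x ∈ padL p L ∧ h (e i) x.length = true}, fun i => ⟨hni _, fun n => ?_,
        (hcl _ _).2 (h3 _), fun hp => ?_, ⟨_, inRP_of (hni ⊤) ((hcl _ _).2 (h3 ⊤)), fun A hA =>
        h4 ⊤ (e i) (fun hle => ?_) A ((hcl _ _).1 hA)⟩⟩, fun i j => ⟨fun hij => ⟨?_, ?_⟩,
        fun hij A hA => h4 _ _ (fun h => hij ((he i j).1 h)) A ((hcl _ _).1 hA)⟩⟩
    · change B2 (fun _ => 0) (fun n => n) 0 n (h (e i) n) ≤ n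
      unfold B2
      split_ifs
      · exact le_rfl
      · exact Nat.zero_le _
    · refine h4 (e i) ⊥ (fun h => WithBot.coe_ne_bot (le_bot_iff.1 h)) _
        ((hcl _ _).1 (rnd_of_inP hp _ _)) (isP_self _)
    · have h2 : (⊤ : WithTop I) ≤ (i : WithTop I) := WithBot.coe_le_coe.1 hle
      exact WithTop.coe_ne_top (top_le_iff.1 h2)
    · exact B2_mono (fun n => Nat.zero_le n) (h2 _ _ ((he i j).2 hij))
    · exact fun A hA => rnd_mono (hni _)
        (B2_mono (fun n => Nat.zero_le n) (h2 _ _ ((he i j).2 hij))) (fun _ => le_rfl) hA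
  · intro h
    obtain ⟨g, L, h1, _⟩ := h Unit
    obtain ⟨h2, _, h3, h4, _⟩ := h1 ()
    exact ⟨L (), inRP_of h2 h3, h4⟩

/-! ### `RP` and `NP` -/

theorem spr_iff {h : ℕ → Bool} {A : Set (List Bool)} :
    SPr (fun n => SP2 0 n (h n)) A ↔ Cls BP SP2 h A := by
  constructor
  · rintro ⟨p, hA⟩
    obtain ⟨k, hk⟩ := exists_pow_bound p
    obtain ⟨V, hV, hok⟩ := rnd_mono (nice_poly p) hk (fun _ => le_rfl) hA
    exact ⟨k, V, hV, hok⟩
  · rintro ⟨k, V, hV, hok⟩
    refine ⟨Polynomial.X ^ k + Polynomial.C k, V, hV, fun x => ?_⟩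
    simp only [Polynomial.eval_add, Polynomial.eval_pow, Polynomial.eval_X, Polynomial.eval_C]
    exact hok x

theorem spr_mono {s s' : ℕ → ℕ} (hs : ∀ n, s n ≤ s' n) {A : Set (List Bool)} (h : SPr s A) :
    SPr s' A := by
  obtain ⟨p, hp⟩ := h
  exact ⟨p, rnd_mono (nice_poly p) (fun _ => le_rfl) hs hp⟩

theorem spr_inNP {s : ℕ → ℕ} {A : Set (List Bool)} (h : SPr s A) : InNPw A := by
  obtain ⟨p, V, hV, hok⟩ := h
  refine ⟨V, p, hV, fun x => ?_⟩
  have h1 : Ok V x (p.eval x.length) (s x.length) (x ∈ A) := hok x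
  rw [h1.iff]
  constructor
  · rintro ⟨w, hw, hV⟩
    have h2 := mem_exL.1 hw
    rw [← h2]
    exact ⟨w.get, by rwa [List.ofFn_get]⟩
  · rintro ⟨w, hw⟩
    exact ⟨_, mem_exL.2 (by simp), hw⟩

theorem inNP_ok {V : List Bool → List Bool} {p : Polynomial ℕ} {A : Set (List Bool)}
    (h : ∀ x, x ∈ A ↔ ∃ w : Fin (p.eval x.length) → Bool, V (pairBits x (List.ofFn w)) = [true])
    (x : List Bool) : Ok V x (p.eval x.length) (p.eval x.length) (x ∈ A) := by
  have h1 : acc V x (p.eval x.length) ≠ 0 ↔ x ∈ A := by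
    rw [acc_pos, h]
    constructor
    · rintro ⟨w, hw, hV⟩
      have h2 := mem_exL.1 hw
      rw [← h2]
      exact ⟨w.get, by rwa [List.ofFn_get]⟩
    · rintro ⟨w, hw⟩
      exact ⟨_, mem_exL.2 (by simp), hw⟩
  refine ⟨fun hx => ?_, fun hx => ?_⟩
  · have h2 := h1.2 hx
    exact Nat.le_mul_of_pos_right _ (Nat.pos_of_ne_zero h2)
  · by_contra h2
    exact hx (h1.1 h2)

theorem spr_rp {A : Set (List Bool)} : SPr (fun _ => 1) A ↔ InRP A := Iff.rfl

/-- The dichotomy for `RP` and `NP`. -/
theorem rp_np : (∃ L, InNPw L ∧ ¬ InRP L) ↔ ∀ (I : Type) [Countable I] [PartialOrder I],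
    ∃ (s : I → ℕ → ℕ) (L : I → Set (List Bool)),
      (∀ i, Nice (s i) ∧ (∀ n, 1 ≤ s i n ∧ s i n ≤ max 1 n) ∧ SPr (s i) (L i) ∧ ¬ InRP (L i) ∧
        ∃ L', InNPw L' ∧ ∀ A, SPr (s i) A → ¬ Reduces L' A) ∧
      ∀ i j, (i ≤ j → (∀ n, s i n ≤ s j n) ∧ ∀ A, SPr (s i) A → SPr (s j) A) ∧
        (¬ i ≤ j → ∀ A, SPr (s j) A → ¬ Reduces (L i) A) := by
  constructor
  · rintro ⟨L, ⟨V, p, hV, hVL⟩, hP⟩ I _ _
    obtain ⟨W, hW, hWok⟩ := pad_mach (s := fun n => p.eval n) hV (p := p) (L := L)
      (inNP_ok hVL)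
    have e1 : Cls BP SP2 (fun _ => true) (padL p L) := by
      refine ⟨1, W, hW, fun y => ?_⟩
      refine hWok y _ _ ?_ (fun h => ?_)
      · simp [BP]
      · simp only [SP2, if_true]
        exact h.trans (le_max_right _ _)
    have e0 : ¬ Cls BP SP2 (fun _ => false) (padL p L) := by
      intro h
      have h1 : SPr (fun n => SP2 0 n false) (padL p L) := (spr_iff (h := fun _ => false)).2 h
      obtain ⟨q, hq⟩ := h1
      exact hP ⟨_, unpad (p := p) (s := 1) (by simpa [SP2] using hq)⟩
    have : Countable (WithBot (WithTop I)) := inferInstanceAs (Countable (Option (Option I)))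
    obtain ⟨h, h1, h2, h3, h4⟩ := universalM e1 e0 (WithBot (WithTop I))
    let e : I → WithBot (WithTop I) := fun i => ((i : WithTop I) : WithBot (WithTop I))
    have he : ∀ i j, e i ≤ e j ↔ i ≤ j := by
      intro i j
      change ((i : WithTop I) : WithBot (WithTop I)) ≤ ((j : WithTop I) : WithBot (WithTop I)) ↔ _
      rw [WithBot.coe_le_coe, WithTop.coe_le_coe]
    have hmono : ∀ i j : WithBot (WithTop I), i ≤ j → ∀ n, SP2 0 n (h i n) ≤ SP2 0 n (h j n) := by
      intro i j hij n
      cases hb : h i n with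
      | true => rw [h2 i j hij n hb]
      | false =>
        cases h j n with
        | true => exact le_max_left _ _
        | false => exact le_rfl
    have hone : ∀ i n, 1 ≤ SP2 0 n (h i n) := by
      intro i n
      unfold SP2
      split_ifs
      · exact le_max_left _ _
      · exact le_rfl
    refine ⟨fun i n => SP2 0 n (h (e i) n),
      fun i => {x | x ∈ padL p L ∧ h (e i) x.length = true}, fun i => ⟨?_, fun n =>
        ⟨hone _ _, ?_⟩, spr_iff.2 (h3 _), fun hp => ?_, ⟨_, spr_inNP (spr_iff.2 (h3 ⊤)),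
        fun A hA => h4 ⊤ (e i) (fun hle => ?_) A (spr_iff.1 hA)⟩⟩, fun i j => ⟨fun hij =>
        ⟨hmono _ _ ((he i j).2 hij), fun A hA => spr_mono (hmono _ _ ((he i j).2 hij)) hA⟩,
        fun hij A hA => h4 _ _ (fun h => hij ((he i j).1 h)) A (spr_iff.1 hA)⟩⟩
    · refine nice_of_upoly ?_
      refine (UPoly.ite (h1 (e i)) ?_ (UPoly.const 1))
      refine UPoly.of_le (NPC.Poly.max (NPC.Poly.const 1) (NPC.Poly.length NPC.Poly.id))
        ((UPoly.length NPC.Poly.id).add (UPoly.const 1)) fun x => ?_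
      omega
    · change SP2 0 n (h (e i) n) ≤ max 1 n
      unfold SP2
      split_ifs
      · exact le_rfl
      · exact le_max_left _ _
    · refine h4 (e i) ⊥ (fun h => WithBot.coe_ne_bot (le_bot_iff.1 h)) _
        (spr_iff.1 (spr_mono (hone ⊥) (spr_rp.2 hp)))
        ⟨id, polyTime_of_poly' NPC.Poly.id, fun _ => Iff.rfl⟩
    · have h2 : (⊤ : WithTop I) ≤ (i : WithTop I) := WithBot.coe_le_coe.1 hle
      exact WithTop.coe_ne_top (top_le_iff.1 h2)
  · intro h
    obtain ⟨s, L, h1, _⟩ := h Unit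
    obtain ⟨_, _, h3, h4, _⟩ := h1 ()
    exact ⟨L (), spr_inNP h3, h4⟩

end Pool.Agent.L0h33.LD
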