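import Pool.Agent.L0h33.LD.Tur

/-!
# Many-one reductions between classes with bounded success probability
-/

set_option autoImplicit false

namespace Pool.Agent.L0h33.LD

open Function Pool.Agent.NPC Pool.Agent.H593R3.FBC Pool.Agent.H660R2.NX
open Pool.Agent.H639R2.NTP (exists_pow_bound)
open Pool.Agent.H639R2.NTP.C5 (allL mem_allL primrec_allL)

attribute [local irreducible] unpair

/-- Any polynomial number of random bits. -/
def BP (k n : ℕ) (_ : Bool) : ℕ := n ^ k + k

/-- The bounds for the success probability. -/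
def SP2 (_ n : ℕ) (b : Bool) : ℕ := if b = true then max 1 n else 1

theorem bds_SP : Bds BP SP2 where
  pB := by
    unfold BP
    exact Primrec.nat_add.comp (Pool.Agent.H639R2.NTP.primrec_pow.comp
      (Primrec.fst.comp Primrec.snd) Primrec.fst) Primrec.fst
  pS := by
    unfold SP2
    exact Primrec.ite (PrimrecRel.comp Primrec.eq (Primrec.snd.comp Primrec.snd)
      (Primrec.const true)) (Primrec.nat_max.comp (Primrec.const 1)
        (Primrec.fst.comp Primrec.snd)) (Primrec.const 1)
  uB := fun k b => by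
    unfold BP
    exact ((UPoly.length NPC.Poly.id).eval (Polynomial.X ^ k + Polynomial.C k)).congr
      fun x => by simp
  mB := fun k n => le_rfl
  mS := fun k n => by simp [SP2]

/-- The reduction with value `q` and the machine number `z` are right about `P`. -/
def OkM (x k : ℕ) (z s q : List Bool) (P : Prop) : Prop :=
  (q.length < x ∧ (s.getD ((allL x).idxOf q) false = true ↔ P)) ∨
    (x ≤ q.length ∧ Ok (FU z x) q (q.length ^ k + k) 1 P)

def WM (L : Set (List Bool)) (x N k : ℕ) (z z' s y : List Bool) : Prop :=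
  x ≤ y.length ∧ y.length < N ∧ (FU z x y).length < N ∧ ¬ OkM x k z' s (FU z x y) (y ∈ L)

/-- The search predicate for many-one reductions. -/
def GM (L : Set (List Bool)) (x N : ℕ) : Prop :=
  ∀ j ∈ List.range x, ∀ j' ∈ List.range x, ∀ k ∈ List.range x,
    ∀ s ∈ allL (allL x).length, ∃ v ∈ List.range N, WM L x N k (str j) (str j') s (str v)

theorem prim_WM {α : Type} [Primcodable α] {L : Set (List Bool)}
    (hL : PrimrecPred (fun x => x ∈ L)) {x N k : α → ℕ} {z z' s y : α → List Bool}
    (hx : Primrec x) (hN : Primrec N) (hk : Primrec k) (hz : Primrec z) (hz' : Primrec z')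
    (hs : Primrec s) (hy : Primrec y) :
    PrimrecPred (fun a => WM L (x a) (N a) (k a) (z a) (z' a) (s a) (y a)) := by
  unfold WM OkM
  have hl : Primrec (fun a => (y a).length) := Primrec.list_length.comp hy
  have hq : Primrec (fun a => FU (z a) (x a) (y a)) := prim_FU hz hx hy
  have hql : Primrec (fun a => (FU (z a) (x a) (y a)).length) := Primrec.list_length.comp hq
  have hP : PrimrecPred (fun a => y a ∈ L) := hL.comp hy
  have h1 : Primrec (fun a => (allL (x a)).idxOf (FU (z a) (x a) (y a))) :=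
    (Primrec.list_idxOf.comp hq (primrec_allL.comp hx)).of_eq fun _ => by
      congr
      exact lawful_beq_subsingleton _ _
  have h2 : PrimrecPred (fun a => (s a).getD ((allL (x a)).idxOf (FU (z a) (x a) (y a))) false
      = true) :=
    PrimrecRel.comp Primrec.eq ((Primrec.list_getD false).comp hs h1) (Primrec.const true)
  have hr : Primrec (fun a => (FU (z a) (x a) (y a)).length ^ k a + k a) :=
    Primrec.nat_add.comp (Pool.Agent.H639R2.NTP.primrec_pow.comp hql hk) hk
  have h3 := prim_Ok hz' hx hq hr (Primrec.const 1) hP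
  exact (PrimrecRel.comp Primrec.nat_le hx hl).and
    ((PrimrecRel.comp Primrec.nat_lt hl hN).and
      ((PrimrecRel.comp Primrec.nat_lt hql hN).and
        (((PrimrecRel.comp Primrec.nat_lt hql hx).and
            (Pool.Agent.H593R3.FBC.PrimrecPred.iff h2 hP)).or
          ((PrimrecRel.comp Primrec.nat_le hx hql).and h3)).not))

theorem prim_GM {L : Set (List Bool)} (hL : PrimrecPred (fun x => x ∈ L)) :
    PrimrecRel (GM L) := by
  -- v, (s, k, j', j, x, N)
  have h1 : PrimrecRel (fun (v : ℕ) (q : List Bool × ℕ × ℕ × ℕ × ℕ × ℕ) =>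
      WM L q.2.2.2.2.1 q.2.2.2.2.2 q.2.1 (str q.2.2.2.1) (str q.2.2.1) q.1 (str v)) := by
    have p0 : Primrec (fun p : ℕ × (List Bool × ℕ × ℕ × ℕ × ℕ × ℕ) => p.2.1) :=
      Primrec.fst.comp Primrec.snd
    have r1 : Primrec (fun p : ℕ × (List Bool × ℕ × ℕ × ℕ × ℕ × ℕ) => p.2.2) :=
      Primrec.snd.comp Primrec.snd
    have r2 : Primrec (fun p : ℕ × (List Bool × ℕ × ℕ × ℕ × ℕ × ℕ) => p.2.2.2) :=
      Primrec.snd.comp r1
    have r3 : Primrec (fun p : ℕ × (List Bool × ℕ × ℕ × ℕ × ℕ × ℕ) => p.2.2.2.2) :=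
      Primrec.snd.comp r2
    have r4 : Primrec (fun p : ℕ × (List Bool × ℕ × ℕ × ℕ × ℕ × ℕ) => p.2.2.2.2.2) :=
      Primrec.snd.comp r3
    exact prim_WM hL (Primrec.fst.comp r4) (Primrec.snd.comp r4) (Primrec.fst.comp r1)
      (prim_strN.comp (Primrec.fst.comp r3)) (prim_strN.comp (Primrec.fst.comp r2)) p0
      (prim_strN.comp Primrec.fst)
  have h2 : PrimrecRel (fun (s : List Bool) (q : ℕ × ℕ × ℕ × ℕ × ℕ) =>
      ∃ v ∈ List.range q.2.2.2.2,
      WM L q.2.2.2.1 q.2.2.2.2 q.1 (str q.2.2.1) (str q.2.1) s (str v)) :=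
    (h1.exists_mem_list).comp
      (f := fun q : List Bool × ℕ × ℕ × ℕ × ℕ × ℕ => List.range q.2.2.2.2.2)
      (g := fun q => q)
      (Primrec.list_range.comp (Primrec.snd.comp (Primrec.snd.comp (Primrec.snd.comp
        (Primrec.snd.comp Primrec.snd))))) Primrec.id
  have h3 : PrimrecRel (fun (k : ℕ) (q : ℕ × ℕ × ℕ × ℕ) => ∀ s ∈ allL (allL q.2.2.1).length,
      ∃ v ∈ List.range q.2.2.2, WM L q.2.2.1 q.2.2.2 k (str q.2.1) (str q.1) s (str v)) :=
    (h2.forall_mem_list).comp (f := fun q : ℕ × ℕ × ℕ × ℕ × ℕ => allL (allL q.2.2.2.1).length)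
      (g := fun q => q) (primrec_allL.comp (Primrec.list_length.comp (primrec_allL.comp
        (Primrec.fst.comp (Primrec.snd.comp (Primrec.snd.comp Primrec.snd)))))) Primrec.id
  have h4 : PrimrecRel (fun (j' : ℕ) (q : ℕ × ℕ × ℕ) => ∀ k ∈ List.range q.2.1,
      ∀ s ∈ allL (allL q.2.1).length,
      ∃ v ∈ List.range q.2.2, WM L q.2.1 q.2.2 k (str q.1) (str j') s (str v)) :=
    (h3.forall_mem_list).comp (f := fun q : ℕ × ℕ × ℕ × ℕ => List.range q.2.2.1)
      (g := fun q => q) (Primrec.list_range.comp (Primrec.fst.comp (Primrec.snd.comp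
        Primrec.snd))) Primrec.id
  have h5 : PrimrecRel (fun (j : ℕ) (q : ℕ × ℕ) => ∀ j' ∈ List.range q.1,
      ∀ k ∈ List.range q.1, ∀ s ∈ allL (allL q.1).length,
      ∃ v ∈ List.range q.2, WM L q.1 q.2 k (str j) (str j') s (str v)) :=
    (h4.forall_mem_list).comp (f := fun q : ℕ × ℕ × ℕ => List.range q.2.1)
      (g := fun q => q) (Primrec.list_range.comp (Primrec.fst.comp Primrec.snd)) Primrec.id
  exact (h5.forall_mem_list).comp (f := fun p : ℕ × ℕ => List.range p.1) (g := fun p => p)
    (Primrec.list_range.comp Primrec.fst) Primrec.id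

/-- The composition of the reduction `f` and the machine `V`, with a table. -/
theorem cls_comp {L : Set (List Bool)} {x k : ℕ} {z z' s : List Bool}
    (h : ∀ y : List Bool, x ≤ y.length → OkM x k z' s (FU z x y) (y ∈ L)) :
    Cls BP SP2 (fun _ => false) L := by
  classical
  set T : List (List Bool) := (allL x).filter
    (fun q => decide (s.getD ((allL x).idxOf q) false = true)) with hT
  set f : List Bool → List Bool := FU z x with hf
  have hfp : Poly f := poly_FU z x
  obtain ⟨p, hp⟩ := NPC.Poly.sz_le hfp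
  have hlen : ∀ y : List Bool, (f y).length ≤ (p.comp (4 * Polynomial.X + 1)).eval y.length := by
    intro y
    have h1 := length_lt_sz (f y)
    have h2 := hp y
    have h3 := sz_listBool_le y
    have h4 : p.eval (sz y) ≤ p.eval (4 * y.length + 1) := by
      exact Pool.Agent.NPC.eval_mono p h3
    have h5 : (p.comp (4 * Polynomial.X + 1)).eval y.length = p.eval (4 * y.length + 1) := by
      simp
    omega
  obtain ⟨K, hK⟩ := exists_pow_bound ((p.comp (4 * Polynomial.X + 1)) ^ k + Polynomial.C k)
  have hB : ∀ y : List Bool, (f y).length ^ k + k ≤ y.length ^ K + K := by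
    intro y
    refine le_trans ?_ (hK y.length)
    have h1 := Nat.pow_le_pow_left (hlen y) k
    simp only [Polynomial.eval_add, Polynomial.eval_pow, Polynomial.eval_C]
    omega
  set W : List Bool → List Bool := fun v =>
    if (f (unpair v).1).length < x then [decide (f (unpair v).1 ∈ T)] else
      FU z' x (pairBits (f (unpair v).1)
        ((unpair v).2.take ((f (unpair v).1).length ^ k + k))) with hW
  have hWp : Poly W := by
    have h0 : Poly (fun y : List Bool => unpair y) := poly_unpair
    have h1 : Poly (fun y : List Bool => (unpair y).1) := h0.fst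
    have h2 : Poly (fun y : List Bool => (unpair y).2) := h0.snd
    have h3 : Poly (fun y : List Bool => f (unpair y).1) := hfp.comp h1
    have hu : UPoly (fun y : List Bool => (f (unpair y).1).length ^ k + k) :=
      ((UPoly.length h3).eval (Polynomial.X ^ k + Polynomial.C k)).congr fun x => by simp
    exact NPC.Poly.ite (NPC.Poly.decide_lt (NPC.Poly.length h3) (NPC.Poly.const x))
      (NPC.Poly.cons ((NPC.Poly.decide_mem h3 (NPC.Poly.const T)).congr fun _ => by congr)
        (NPC.Poly.const []))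
      ((poly_FU z' x).comp (poly_pairBits h3 (poly_take h2 hu)))
  refine cls_patch (k := K) (m := x) (polyTime_of_poly' hWp) fun y hy => ?_
  rcases h y hy with ⟨h1, h2⟩ | ⟨h1, h2⟩
  · refine Ok.const fun w => ?_
    rw [hW]
    simp only
    rw [unpair_pairBits]
    simp only [h1, if_true, List.cons.injEq, decide_eq_true_eq, and_true, hT, List.mem_filter,
      mem_allL]
    rw [← h2]
    exact ⟨fun h => h.2, fun h => ⟨h1.le, h⟩⟩
  · refine h2.more (hB y) (by simp [SP2]) fun w _ => ?_
    rw [hW]
    simp only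
    rw [unpair_pairBits]
    simp only [not_lt.2 h1, if_false]

theorem exists_GM {L : Set (List Bool)} (hL : ¬ Cls BP SP2 (fun _ => false) L) (x : ℕ) :
    ∃ N, GM L x N := by
  have h1 : ∀ (z z' s : List Bool) (k : ℕ), ∃ v : ℕ, x ≤ (str v).length ∧
      ¬ OkM x k z' s (FU z x (str v)) (str v ∈ L) := by
    intro z z' s k
    by_contra hcon
    push Not at hcon
    refine hL (cls_comp (x := x) (k := k) (z := z) (z' := z') (s := s) fun y hy => ?_)
    have h2 := hcon (Encodable.encode y)
    rw [str_encode] at h2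
    exact h2 hy
  have h2 : ∀ᶠ N in Filter.atTop, ∀ j ∈ (List.range x).toFinset, ∀ j' ∈ (List.range x).toFinset,
      ∀ k ∈ (List.range x).toFinset, ∀ s ∈ (allL (allL x).length).toFinset,
      ∃ v ∈ List.range N, WM L x N k (str j) (str j') s (str v) := by
    rw [Filter.eventually_all_finset]
    intro j _
    rw [Filter.eventually_all_finset]
    intro j' _
    rw [Filter.eventually_all_finset]
    intro k _
    rw [Filter.eventually_all_finset]
    intro s _
    obtain ⟨v, hv1, hv2⟩ := h1 (str j) (str j') s k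
    filter_upwards [Filter.eventually_gt_atTop v, Filter.eventually_gt_atTop (str v).length,
      Filter.eventually_gt_atTop (FU (str j) x (str v)).length]
      with N hN1 hN2 hN3
    exact ⟨v, List.mem_range.2 hN1, hv1, hN2, hN3, hv2⟩
  obtain ⟨N, h4⟩ := h2.exists
  exact ⟨N, fun j hj j' hj' k hk s hs => h4 j (List.mem_toFinset.2 hj) j'
    (List.mem_toFinset.2 hj') k (List.mem_toFinset.2 hk) s (List.mem_toFinset.2 hs)⟩

/-- The general theorem for many-one reductions. -/
theorem universalM {L : Set (List Bool)} (hL1 : Cls BP SP2 (fun _ => true) L)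
    (hL0 : ¬ Cls BP SP2 (fun _ => false) L) (I : Type) [Countable I] [PartialOrder I] :
    ∃ h : I → ℕ → Bool, (∀ i, Poly (fun x : List Bool => h i x.length)) ∧
      (∀ i j, i ≤ j → ∀ n, h i n = true → h j n = true) ∧
      (∀ i, Cls BP SP2 (h i) {x | x ∈ L ∧ h i x.length = true}) ∧
      ∀ i j, ¬ i ≤ j → ∀ A, Cls BP SP2 (h j) A →
        ¬ Reduces {x | x ∈ L ∧ h i x.length = true} A := by
  classical
  have hm := prim_mem bds_SP (NPC.Poly.const true) hL1
  obtain ⟨h, h1, h2, h3⟩ := clock (prim_GM hm) (exists_GM hL0) I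
  refine ⟨h, h1, h2, fun i => cls_mask (h1 i) hL1, fun i j hij A hA hR => ?_⟩
  obtain ⟨k, W, hW, hok⟩ := hA
  obtain ⟨z', k0', hz'⟩ := exists_FU hW
  obtain ⟨f, hf, hfL⟩ := hR
  obtain ⟨z, k0, hz⟩ := exists_FU hf
  obtain ⟨x, N, hx, hG, hs⟩ := h3 i j hij (max (max k0 k0') (max (k + 1)
    (max (Encodable.encode z + 1) (Encodable.encode z' + 1))))
  set s : List Bool := (allL x).map (fun q => decide (q ∈ A)) with hsd
  obtain ⟨v, _, hv1, hv2, hv3, hv4⟩ := hG (Encodable.encode z) (List.mem_range.2 (by omega))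
    (Encodable.encode z') (List.mem_range.2 (by omega)) k (List.mem_range.2 (by omega)) s
    (mem_allL.2 (by simp [hsd]))
  rw [str_encode] at hv3 hv4
  rw [str_encode] at hv4
  set y := str v with hy
  have hpn : ∀ a b : List Bool, pairBits a b ≠ [] := fun a b => by unfold pairBits; simp
  have hy0 : y ≠ [] := by
    intro h0
    rw [h0] at hv1
    simp at hv1
    omega
  have hFU : FU z x y = f y := hz x _ (by omega) hy0
  rw [hFU] at hv3 hv4
  apply hv4
  have hAL : f y ∈ A ↔ y ∈ L := by
    rw [← hfL y]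
    simp [(hs _ hv1 hv2).1]
  unfold OkM
  by_cases hqx : (f y).length < x
  · left
    refine ⟨hqx, ?_⟩
    have h6 : f y ∈ allL x := mem_allL.2 hqx.le
    have h7 : (allL x).idxOf (f y) < (allL x).length := List.idxOf_lt_length_of_mem h6
    have h8 : s.getD ((allL x).idxOf (f y)) false = decide (f y ∈ A) := by
      rw [List.getD_eq_getElem _ _ (by simpa [hsd] using h7)]
      simp only [hsd, List.getElem_map, List.getElem_idxOf]
    rw [h8, decide_eq_true_iff]
    exact hAL
  · right
    refine ⟨not_lt.1 hqx, ?_⟩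
    obtain ⟨_, h9⟩ := hs (f y).length (not_lt.1 hqx) hv3
    have h10 := hok (f y)
    rw [h9] at h10
    refine h10.congr hAL fun w _ => ?_
    rw [hz' x _ (by omega) (hpn _ _)]

end Pool.Agent.L0h33.LD
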