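import Pool.Agent.L0h33.LD.Gen
import Pool.Agent.Y600.PPM.Sim
import Pool.Agent.Y217.FB.Ex4

/-!
# Turing reductions
-/

set_option autoImplicit false

namespace Pool.Agent.L0h33.LD

open Function Pool.Agent.NPC Pool.Agent.H593R3.FBC Pool.Agent.H660R2.NX
open Pool.Agent.Y600.FB (chi)
open Pool.Agent.H620R2.Gauge (Alg IsP IsFP Oracle)
open Pool.Agent.H639R2.NTP (exists_pow_bound)
open Pool.Agent.H639R2.NTP.C5 (allL mem_allL primrec_allL)

attribute [local irreducible] unpair

/-- The oracle of the search: a table for the short strings, and a machine without random bits for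
the others. -/
def OT (x : ℕ) (z s q : List Bool) : Prop :=
  (q.length < x ∧ s.getD ((allL x).idxOf q) false = true) ∨
    (x ≤ q.length ∧ FU z x (pairBits q []) = [true])

open Classical in
/-- One round of the oracle algorithm number `z` with the oracle given by `z'` and `s`. -/
noncomputable def stO (x : ℕ) (z z' s y a : List Bool) : List Bool :=
  if (FU z x (pairBits y a)).head? = some false then
    a ++ [decide (OT x z' s (FU z x (pairBits y a)).tail)] else a

/-- The answers after `i` rounds. -/
noncomputable def anO (x : ℕ) (z z' s y : List Bool) (i : ℕ) : List Bool :=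
  (stO x z z' s y)^[i] []

/-- The search predicate for Turing reductions. -/
def GT (L : Set (List Bool)) (x N : ℕ) : Prop :=
  ∀ j ∈ List.range x, ∀ j' ∈ List.range x, ∀ s ∈ allL (allL x).length, ∃ v ∈ List.range N,
    x ≤ (str v).length ∧ (str v).length < N ∧
    (∀ i ∈ List.range ((str v).length ^ x + x),
      (FU (str j) x (pairBits (str v) (anO x (str j) (str j') s (str v) i))).tail.length < N) ∧
    ¬ (FU (str j) x (pairBits (str v) (anO x (str j) (str j') s (str v)
      ((str v).length ^ x + x))) = [true, true] ↔ str v ∈ L)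

theorem poly_OT (x : ℕ) (z s : List Bool) : ∃ f : List Bool → Bool, Poly f ∧
    ∀ q, f q = true ↔ OT x z s q := by
  classical
  set T : List (List Bool) := (allL x).filter (fun q => decide (s.getD ((allL x).idxOf q) false = true))
    with hT
  refine ⟨fun q => if q.length < x then decide (q ∈ T) else decide (FU z x (pairBits q []) = [true]),
    ?_, fun q => ?_⟩
  · refine NPC.Poly.ite (NPC.Poly.decide_lt (NPC.Poly.length NPC.Poly.id) (NPC.Poly.const x))
      ((NPC.Poly.decide_mem NPC.Poly.id (NPC.Poly.const T)).congr fun _ => by congr) ?_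
    exact NPC.Poly.decide_eq ((poly_FU z x).comp (poly_pairBits NPC.Poly.id (NPC.Poly.const [])))
      (NPC.Poly.const _)
  · unfold OT
    by_cases h : q.length < x
    · simp only [h, if_true, decide_eq_true_eq, true_and, not_le.2 h, false_and, or_false, hT,
        List.mem_filter, mem_allL, h.le]
    · simp only [h, if_false, decide_eq_true_eq, false_and, false_or, not_lt.1 h, true_and]

theorem length_anO (x : ℕ) (z z' s y : List Bool) :
    ∀ n, ((stO x z z' s y)^[n] []).length ≤ n
  | 0 => by simp
  | n + 1 => by
    rw [Function.iterate_succ_apply']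
    have ih := length_anO x z z' s y n
    unfold stO
    split_ifs
    · simp only [List.length_append, List.length_singleton]
      unfold stO at ih
      omega
    · unfold stO at ih
      omega

theorem poly_stO (x : ℕ) (z z' s : List Bool) :
    Poly (fun p : List Bool × List Bool => stO x z z' s p.1 p.2) := by
  classical
  obtain ⟨f, hf, hfO⟩ := poly_OT x z' s
  have hx : Poly (fun p : List Bool × List Bool => FU z x (pairBits p.1 p.2)) :=
    (poly_FU z x).comp (poly_pairBits (NPC.Poly.fst NPC.Poly.id) (NPC.Poly.snd NPC.Poly.id))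
  have h1 : Poly (fun p : List Bool × List Bool => f (FU z x (pairBits p.1 p.2)).tail) :=
    hf.comp (NPC.Poly.tail hx)
  have h2 : Poly (fun p : List Bool × List Bool => [f (FU z x (pairBits p.1 p.2)).tail]) :=
    NPC.Poly.cons h1 (NPC.Poly.const [])
  refine (NPC.Poly.ite (NPC.Poly.decide_eq (NPC.Poly.head? hx) (NPC.Poly.const (some false)))
    (NPC.Poly.append (NPC.Poly.snd NPC.Poly.id) h2) (NPC.Poly.snd NPC.Poly.id)).congr fun p => ?_
  have h3 : ∀ q, f q = decide (OT x z' s q) := by
    intro q
    by_cases h : OT x z' s q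
    · rw [(hfO q).2 h]
      simp [h]
    · have h4 : f q ≠ true := fun h' => h ((hfO q).1 h')
      simp only [h, decide_false]
      simpa using h4
  unfold stO
  simp only [h3]

theorem poly_simO (x : ℕ) (z z' s : List Bool) :
    Poly (fun y : List Bool => FU z x (pairBits y (anO x z z' s y (y.length ^ x + x)))) := by
  have hk : UPoly (fun y : List Bool => y.length ^ x + x) := by
    refine ((UPoly.length NPC.Poly.id).eval (Polynomial.X ^ x + Polynomial.C x)).congr
      fun y => by simp
  have h : Poly (fun y : List Bool => (stO x z z' s y)^[y.length ^ x + x] []) := by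
    refine poly_iterU (n := fun y : List Bool => y.length ^ x + x)
      (s := fun _ => ([] : List Bool)) (F := fun y => stO x z z' s y) hk (NPC.Poly.const _)
      (poly_stO x z z' s) (4 * (Polynomial.X ^ x + Polynomial.C x) + 1) ?_
    intro y j hj
    have h1 := length_anO x z z' s y j
    have h2 := sz_listBool_le ((stO x z z' s y)^[j] [])
    have h3 : y.length ^ x ≤ sz y ^ x := Nat.pow_le_pow_left (length_lt_sz y).le x
    simp only [Polynomial.eval_add, Polynomial.eval_mul, Polynomial.eval_ofNat,
      Polynomial.eval_pow, Polynomial.eval_X, Polynomial.eval_C, Polynomial.eval_one]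
    omega
  exact (poly_FU z x).comp (poly_pairBits NPC.Poly.id h)

/-- Finitely many exceptions. -/
theorem inP_patch {L : Set (List Bool)} {m : ℕ} {f : List Bool → Bool} (hf : Poly f)
    (h : ∀ x : List Bool, m ≤ x.length → (f x = true ↔ x ∈ L)) : InP L := by
  classical
  set T : List (List Bool) := (allL m).filter (fun x => decide (x ∈ L)) with hT
  have h1 : Poly (fun x : List Bool => if x.length < m then decide (x ∈ T) else f x) :=
    NPC.Poly.ite (NPC.Poly.decide_lt (NPC.Poly.length NPC.Poly.id) (NPC.Poly.const m))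
      ((NPC.Poly.decide_mem NPC.Poly.id (NPC.Poly.const T)).congr fun _ => by congr) hf
  refine ⟨_, polyTime_of_poly h1, fun x => ?_⟩
  by_cases hx : x.length < m
  · simp only [hx, if_true, List.cons.injEq, decide_eq_true_eq, and_true, hT, List.mem_filter,
      mem_allL]
    exact ⟨fun h => ⟨hx.le, h⟩, fun h => h.2⟩
  · simp only [hx, if_false, List.cons.injEq, and_true]
    exact (h x (not_lt.1 hx)).symm

theorem exists_GT {L : Set (List Bool)} (hL : ¬ InP L) (x : ℕ) : ∃ N, GT L x N := by
  have h1 : ∀ (z z' s : List Bool), ∃ v : ℕ, x ≤ (str v).length ∧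
      ¬ (FU z x (pairBits (str v) (anO x z z' s (str v) ((str v).length ^ x + x))) =
        [true, true] ↔ str v ∈ L) := by
    intro z z' s
    by_contra hcon
    push Not at hcon
    have h4 : Poly (fun y : List Bool =>
        decide (FU z x (pairBits y (anO x z z' s y (y.length ^ x + x))) = [true, true])) :=
      NPC.Poly.decide_eq (poly_simO x z z' s) (NPC.Poly.const _)
    refine hL (inP_patch (m := x) h4 fun y hy => ?_)
    have h2 := hcon (Encodable.encode y)
    rw [str_encode] at h2
    simpa using h2 hy
  have h2 : ∀ᶠ N in Filter.atTop, ∀ j ∈ (List.range x).toFinset, ∀ j' ∈ (List.range x).toFinset,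
      ∀ s ∈ (allL (allL x).length).toFinset, ∃ v ∈ List.range N,
      x ≤ (str v).length ∧ (str v).length < N ∧
      (∀ i ∈ List.range ((str v).length ^ x + x),
        (FU (str j) x (pairBits (str v) (anO x (str j) (str j') s (str v) i))).tail.length < N) ∧
      ¬ (FU (str j) x (pairBits (str v) (anO x (str j) (str j') s (str v)
        ((str v).length ^ x + x))) = [true, true] ↔ str v ∈ L) := by
    rw [Filter.eventually_all_finset]
    intro j _
    rw [Filter.eventually_all_finset]
    intro j' _
    rw [Filter.eventually_all_finset]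
    intro s _
    obtain ⟨v, hv1, hv2⟩ := h1 (str j) (str j') s
    filter_upwards [Filter.eventually_gt_atTop v, Filter.eventually_gt_atTop (str v).length,
      Filter.eventually_gt_atTop (∑ i ∈ Finset.range ((str v).length ^ x + x),
        (FU (str j) x (pairBits (str v) (anO x (str j) (str j') s (str v) i))).tail.length)]
      with N hN1 hN2 hN3
    refine ⟨v, List.mem_range.2 hN1, hv1, hN2, fun i hi => ?_, hv2⟩
    have h3 := Finset.single_le_sum (f := fun i =>
      (FU (str j) x (pairBits (str v) (anO x (str j) (str j') s (str v) i))).tail.length)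
      (fun j _ => Nat.zero_le _) (Finset.mem_range.2 (List.mem_range.1 hi))
    omega
  obtain ⟨N, h4⟩ := h2.exists
  exact ⟨N, fun j hj j' hj' s hs => h4 j (List.mem_toFinset.2 hj) j' (List.mem_toFinset.2 hj') s
    (List.mem_toFinset.2 hs)⟩

section

variable {α : Type} [Primcodable α]

theorem prim_dec {p : α → Prop} (hp : PrimrecPred p)
    (D : DecidablePred p) : Primrec (fun a => @decide (p a) (D a)) := by
  obtain ⟨D', h⟩ := hp
  refine h.of_eq fun a => ?_
  congr

theorem prim_OT {x : α → ℕ} {z s q : α → List Bool} (hx : Primrec x) (hz : Primrec z)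
    (hs : Primrec s) (hq : Primrec q) : PrimrecPred (fun a => OT (x a) (z a) (s a) (q a)) := by
  have hl : Primrec (fun a => (q a).length) := Primrec.list_length.comp hq
  have h1 : Primrec (fun a => (allL (x a)).idxOf (q a)) :=
    (Primrec.list_idxOf.comp hq (primrec_allL.comp hx)).of_eq fun _ => by
      congr
      exact lawful_beq_subsingleton _ _
  have h2 : PrimrecPred (fun a => (s a).getD ((allL (x a)).idxOf (q a)) false = true) :=
    PrimrecRel.comp Primrec.eq ((Primrec.list_getD false).comp hs h1) (Primrec.const true)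
  have h3 : PrimrecPred (fun a => FU (z a) (x a) (pairBits (q a) []) = [true]) :=
    PrimrecRel.comp Primrec.eq (prim_FU hz hx (prim_pair hq (Primrec.const [])))
      (Primrec.const [true])
  exact ((PrimrecRel.comp Primrec.nat_lt hl hx).and h2).or
    ((PrimrecRel.comp Primrec.nat_le hx hl).and h3)

theorem prim_stO {x : α → ℕ} {z z' s y a : α → List Bool} (hx : Primrec x)
    (hz : Primrec z) (hz' : Primrec z') (hs : Primrec s) (hy : Primrec y) (ha : Primrec a) :
    Primrec (fun v => stO (x v) (z v) (z' v) (s v) (y v) (a v)) := by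
  have h1 : Primrec (fun v => FU (z v) (x v) (pairBits (y v) (a v))) :=
    prim_FU hz hx (prim_pair hy ha)
  have h2 : Primrec (fun v => (FU (z v) (x v) (pairBits (y v) (a v))).tail) :=
    Primrec.list_tail.comp h1
  have h3 : PrimrecPred (fun v => OT (x v) (z' v) (s v)
      (FU (z v) (x v) (pairBits (y v) (a v))).tail) := prim_OT hx hz' hs h2
  have h4 : PrimrecPred (fun v => (FU (z v) (x v) (pairBits (y v) (a v))).head? = some false) :=
    PrimrecRel.comp Primrec.eq (Primrec.list_head?.comp h1) (Primrec.const (some false))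
  unfold stO
  exact Primrec.ite h4 (Primrec.list_append.comp ha
    (Primrec.list_cons.comp (prim_dec h3 _) (Primrec.const []))) ha

theorem prim_anO {x i : α → ℕ} {z z' s y : α → List Bool} (hx : Primrec x)
    (hz : Primrec z) (hz' : Primrec z') (hs : Primrec s) (hy : Primrec y) (hi : Primrec i) :
    Primrec (fun v => anO (x v) (z v) (z' v) (s v) (y v) (i v)) := by
  unfold anO
  exact Primrec.nat_iterate (h := fun v a => stO (x v) (z v) (z' v) (s v) (y v) a) hi
    (Primrec.const [])
    (prim_stO (hx.comp Primrec.fst) (hz.comp Primrec.fst) (hz'.comp Primrec.fst)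
      (hs.comp Primrec.fst) (hy.comp Primrec.fst) Primrec.snd).to₂

end

/-- The inner part of the search predicate. -/
def WT (L : Set (List Bool)) (x N : ℕ) (z z' s y : List Bool) : Prop :=
  x ≤ y.length ∧ y.length < N ∧
    (∀ i ∈ List.range (y.length ^ x + x),
      (FU z x (pairBits y (anO x z z' s y i))).tail.length < N) ∧
    ¬ (FU z x (pairBits y (anO x z z' s y (y.length ^ x + x))) = [true, true] ↔ y ∈ L)

theorem prim_WT {α : Type} [Primcodable α] {L : Set (List Bool)}
    (hL : PrimrecPred (fun x => x ∈ L)) {x N : α → ℕ} {z z' s y : α → List Bool}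
    (hx : Primrec x) (hN : Primrec N) (hz : Primrec z) (hz' : Primrec z') (hs : Primrec s)
    (hy : Primrec y) :
    PrimrecPred (fun a => WT L (x a) (N a) (z a) (z' a) (s a) (y a)) := by
  unfold WT
  have hl : Primrec (fun a => (y a).length) := Primrec.list_length.comp hy
  have hR : Primrec (fun a => (y a).length ^ x a + x a) :=
    Primrec.nat_add.comp (Pool.Agent.H639R2.NTP.primrec_pow.comp hl hx) hx
  have h5 : PrimrecRel (fun (i : ℕ)
      (q : List Bool × List Bool × List Bool × List Bool × ℕ × ℕ) =>
      (FU q.1 q.2.2.2.2.1 (pairBits q.2.2.2.1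
        (anO q.2.2.2.2.1 q.1 q.2.1 q.2.2.1 q.2.2.2.1 i))).tail.length < q.2.2.2.2.2) := by
    have p1 : Primrec (fun p : ℕ × (List Bool × List Bool × List Bool × List Bool × ℕ × ℕ) =>
      p.2.1) := Primrec.fst.comp Primrec.snd
    have r2 : Primrec (fun p : ℕ × (List Bool × List Bool × List Bool × List Bool × ℕ × ℕ) =>
      p.2.2) := Primrec.snd.comp Primrec.snd
    have p2 : Primrec (fun p : ℕ × (List Bool × List Bool × List Bool × List Bool × ℕ × ℕ) =>
      p.2.2.1) := Primrec.fst.comp r2
    have r3 : Primrec (fun p : ℕ × (List Bool × List Bool × List Bool × List Bool × ℕ × ℕ) =>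
      p.2.2.2) := Primrec.snd.comp r2
    have p3 : Primrec (fun p : ℕ × (List Bool × List Bool × List Bool × List Bool × ℕ × ℕ) =>
      p.2.2.2.1) := Primrec.fst.comp r3
    have r4 : Primrec (fun p : ℕ × (List Bool × List Bool × List Bool × List Bool × ℕ × ℕ) =>
      p.2.2.2.2) := Primrec.snd.comp r3
    have p4 : Primrec (fun p : ℕ × (List Bool × List Bool × List Bool × List Bool × ℕ × ℕ) =>
      p.2.2.2.2.1) := Primrec.fst.comp r4
    have r5 : Primrec (fun p : ℕ × (List Bool × List Bool × List Bool × List Bool × ℕ × ℕ) =>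
      p.2.2.2.2.2) := Primrec.snd.comp r4
    have p5 : Primrec (fun p : ℕ × (List Bool × List Bool × List Bool × List Bool × ℕ × ℕ) =>
      p.2.2.2.2.2.1) := Primrec.fst.comp r5
    have p6 : Primrec (fun p : ℕ × (List Bool × List Bool × List Bool × List Bool × ℕ × ℕ) =>
      p.2.2.2.2.2.2) := Primrec.snd.comp r5
    exact PrimrecRel.comp Primrec.nat_lt (Primrec.list_length.comp (Primrec.list_tail.comp
      (prim_FU p1 p5 (prim_pair p4 (prim_anO p5 p1 p2 p3 p4 Primrec.fst))))) p6
  have h6 := (h5.forall_mem_list).comp
    (f := fun a => List.range ((y a).length ^ x a + x a))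
    (g := fun a => (z a, z' a, s a, y a, x a, N a))
    (Primrec.list_range.comp hR)
    (Primrec.pair hz (Primrec.pair hz' (Primrec.pair hs (Primrec.pair hy (Primrec.pair hx hN)))))
  have h7 := PrimrecRel.comp Primrec.eq (prim_FU hz hx (prim_pair hy
    (prim_anO hx hz hz' hs hy hR))) (Primrec.const [true, true])
  exact (PrimrecRel.comp Primrec.nat_le hx hl).and
    ((PrimrecRel.comp Primrec.nat_lt hl hN).and
      (h6.and (Pool.Agent.H593R3.FBC.PrimrecPred.iff h7 (hL.comp hy)).not))

theorem prim_GT {L : Set (List Bool)} (hL : PrimrecPred (fun x => x ∈ L)) :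
    PrimrecRel (GT L) := by
  -- v, (s, j', j, x, N)
  have h1 : PrimrecRel (fun (v : ℕ) (q : List Bool × ℕ × ℕ × ℕ × ℕ) =>
      WT L q.2.2.2.1 q.2.2.2.2 (str q.2.2.1) (str q.2.1) q.1 (str v)) := by
    have p0 : Primrec (fun p : ℕ × (List Bool × ℕ × ℕ × ℕ × ℕ) => p.2.1) :=
      Primrec.fst.comp Primrec.snd
    have r1 : Primrec (fun p : ℕ × (List Bool × ℕ × ℕ × ℕ × ℕ) => p.2.2) :=
      Primrec.snd.comp Primrec.snd
    have r2 : Primrec (fun p : ℕ × (List Bool × ℕ × ℕ × ℕ × ℕ) => p.2.2.2) :=
      Primrec.snd.comp r1
    have r3 : Primrec (fun p : ℕ × (List Bool × ℕ × ℕ × ℕ × ℕ) => p.2.2.2.2) :=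
      Primrec.snd.comp r2
    exact prim_WT hL (Primrec.fst.comp r3) (Primrec.snd.comp r3)
      (prim_strN.comp (Primrec.fst.comp r2)) (prim_strN.comp (Primrec.fst.comp r1)) p0
      (prim_strN.comp Primrec.fst)
  have h2 : PrimrecRel (fun (s : List Bool) (q : ℕ × ℕ × ℕ × ℕ) => ∃ v ∈ List.range q.2.2.2,
      WT L q.2.2.1 q.2.2.2 (str q.2.1) (str q.1) s (str v)) :=
    (h1.exists_mem_list).comp (f := fun q : List Bool × ℕ × ℕ × ℕ × ℕ => List.range q.2.2.2.2)
      (g := fun q => q)
      (Primrec.list_range.comp (Primrec.snd.comp (Primrec.snd.comp (Primrec.snd.comp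
        Primrec.snd)))) Primrec.id
  have h3 : PrimrecRel (fun (j' : ℕ) (q : ℕ × ℕ × ℕ) => ∀ s ∈ allL (allL q.2.1).length,
      ∃ v ∈ List.range q.2.2, WT L q.2.1 q.2.2 (str q.1) (str j') s (str v)) :=
    (h2.forall_mem_list).comp (f := fun q : ℕ × ℕ × ℕ × ℕ => allL (allL q.2.2.1).length)
      (g := fun q => q) (primrec_allL.comp (Primrec.list_length.comp (primrec_allL.comp
        (Primrec.fst.comp (Primrec.snd.comp Primrec.snd))))) Primrec.id
  have h4 : PrimrecRel (fun (j : ℕ) (q : ℕ × ℕ) => ∀ j' ∈ List.range q.1,
      ∀ s ∈ allL (allL q.1).length,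
      ∃ v ∈ List.range q.2, WT L q.1 q.2 (str j) (str j') s (str v)) :=
    (h3.forall_mem_list).comp (f := fun q : ℕ × ℕ × ℕ => List.range q.2.1)
      (g := fun q => q) (Primrec.list_range.comp (Primrec.fst.comp Primrec.snd)) Primrec.id
  exact (h4.forall_mem_list).comp (f := fun p : ℕ × ℕ => List.range p.1) (g := fun p => p)
    (Primrec.list_range.comp Primrec.fst) Primrec.id

/-- The run of the oracle algorithm and the rounds of the simulation. -/
theorem run_anO (M : Alg) (A : Oracle) (x : ℕ) (z z' s y : List Bool) (R : ℕ)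
    (hFU : ∀ a, FU z x (pairBits y a) = M.D (pairBits y a))
    (hA : ∀ i, i < R → ∀ q, M.D (pairBits y (anO x z z' s y i)) = false :: q →
      (OT x z' s q ↔ A q = true)) :
    ∀ (n i : ℕ) (o : List Bool), i + n ≤ R → M.run A y n (anO x z z' s y i) = some o →
      (FU z x (pairBits y (anO x z z' s y R)) = [true, true] ↔ o = [true])
  | 0, i, o, _, h => by simp [Alg.run] at h
  | n + 1, i, o, hi, h => by
    have hsucc : anO x z z' s y (i + 1) = stO x z z' s y (anO x z z' s y i) := by
      unfold anO
      exact Function.iterate_succ_apply' _ _ _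
    have hR : anO x z z' s y R = (stO x z z' s y)^[R - i] (anO x z z' s y i) := by
      unfold anO
      rw [← Function.iterate_add_apply]
      congr 2
      omega
    unfold Alg.run at h
    rcases hD : M.D (pairBits y (anO x z z' s y i)) with _ | ⟨b, q⟩
    · rw [hD] at h
      have h0 : FU z x (pairBits y (anO x z z' s y i)) = [] := by
        rw [hFU, hD]
      have hs : stO x z z' s y (anO x z z' s y i) = anO x z z' s y i := by
        unfold stO
        rw [h0]
        simp
      rw [hR, Function.iterate_fixed hs, h0]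
      have ho : o = [] := by simpa using h.symm
      rw [ho]
      simp
    · rw [hD] at h
      cases b with
      | true =>
        have h0 : FU z x (pairBits y (anO x z z' s y i)) = true :: q := by
          rw [hFU, hD]
        have hs : stO x z z' s y (anO x z z' s y i) = anO x z z' s y i := by
          unfold stO
          rw [h0]
          simp
        rw [hR, Function.iterate_fixed hs, h0]
        have ho : o = q := by simpa using h.symm
        rw [ho]
        simp
      | false =>
        have h0 : FU z x (pairBits y (anO x z z' s y i)) = false :: q := by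
          rw [hFU, hD]
        have h1 := hA i (by omega) q hD
        have hs : stO x z z' s y (anO x z z' s y i) = anO x z z' s y i ++ [A q] := by
          unfold stO
          rw [h0]
          rw [if_pos (by simp)]
          congr 2
          rw [List.tail_cons]
          classical
          by_cases h2 : A q = true
          · rw [h2]
            exact decide_eq_true (h1.2 h2)
          · have h3 : A q = false := by simpa using h2
            rw [h3]
            exact decide_eq_false fun h4 => h2 (h1.1 h4)
        have h2 : M.run A y n (anO x z z' s y (i + 1)) = some o := by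
          rw [hsucc, hs]
          exact h
        exact run_anO M A x z z' s y R hFU hA n (i + 1) o (by omega) h2

theorem ok_zero {V : List Bool → List Bool} {q : List Bool} {s : ℕ} {P : Prop}
    (h : Ok V q 0 s P) : P ↔ V (pairBits q []) = [true] := by
  rw [h.iff]
  simp [exL]

/-- The general theorem for Turing reductions. -/
theorem universalT {B S : ℕ → ℕ → Bool → ℕ} (hBS : Bds B S) (hB0 : ∀ k n, B k n false = 0)
    {L : Set (List Bool)} (hL1 : Cls B S (fun _ => true) L) (hL0 : ¬ InP L)
    (I : Type) [Countable I] [PartialOrder I] :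
    ∃ h : I → ℕ → Bool, (∀ i, Poly (fun x : List Bool => h i x.length)) ∧
      (∀ i j, i ≤ j → ∀ n, h i n = true → h j n = true) ∧
      (∀ i, Cls B S (h i) {x | x ∈ L ∧ h i x.length = true}) ∧
      ∀ i j, ¬ i ≤ j → ∀ A, Cls B S (h j) A →
        ¬ IsP (chi A) {x | x ∈ L ∧ h i x.length = true} := by
  classical
  have hm := prim_mem hBS (NPC.Poly.const true) hL1
  obtain ⟨h, h1, h2, h3⟩ := clock (prim_GT hm) (exists_GT hL0) I
  refine ⟨h, h1, h2, fun i => cls_mask (h1 i) hL1, fun i j hij A hA hR => ?_⟩
  obtain ⟨k, W, hW, hok⟩ := hA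
  obtain ⟨z', k0', hz'⟩ := exists_FU hW
  obtain ⟨V, ⟨M, hM⟩, hV⟩ := hR
  obtain ⟨z, k0, hz⟩ := exists_FU M.poly
  obtain ⟨k1, hk1⟩ := exists_pow_bound M.p
  obtain ⟨x, N, hx, hG, hs⟩ := h3 i j hij (max (max k0 k0') (max k1
    (max (Encodable.encode z + 1) (Encodable.encode z' + 1))))
  set s : List Bool := (allL x).map (fun q => decide (q ∈ A)) with hsd
  obtain ⟨v, _, hv1, hv2, hv3, hv4⟩ := hG (Encodable.encode z) (List.mem_range.2 (by omega))
    (Encodable.encode z') (List.mem_range.2 (by omega)) s (mem_allL.2 (by simp [hsd]))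
  rw [str_encode] at hv3 hv4
  rw [str_encode] at hv3 hv4
  set y := str v with hy
  set R := y.length ^ x + x with hRd
  have hpn : ∀ a b : List Bool, pairBits a b ≠ [] := fun a b => by unfold pairBits; simp
  have hFU : ∀ a, FU z x (pairBits y a) = M.D (pairBits y a) := fun a =>
    hz x _ (by omega) (hpn _ _)
  have hA : ∀ i, i < R → ∀ q, M.D (pairBits y (anO x z z' s y i)) = false :: q →
      (OT x z' s q ↔ chi A q = true) := by
    intro i hi q hq
    have h0 : FU z x (pairBits y (anO x z z' s y i)) = false :: q := by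
      rw [hFU, hq]
    have h5 := hv3 i (List.mem_range.2 hi)
    rw [h0, List.tail_cons] at h5
    unfold OT chi
    rw [decide_eq_true_iff]
    by_cases hqx : q.length < x
    · have h6 : q ∈ allL x := mem_allL.2 hqx.le
      have h7 : (allL x).idxOf q < (allL x).length := List.idxOf_lt_length_of_mem h6
      have h8 : s.getD ((allL x).idxOf q) false = decide (q ∈ A) := by
        rw [List.getD_eq_getElem _ _ (by simpa [hsd] using h7)]
        simp only [hsd, List.getElem_map, List.getElem_idxOf]
      rw [h8]
      simp [hqx, not_le.2 hqx]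
    · obtain ⟨_, h9⟩ := hs q.length (not_lt.1 hqx) h5
      have h10 := hok q
      rw [h9, hB0] at h10
      rw [ok_zero h10, hz' x _ (by omega) (hpn _ _)]
      simp [hqx, not_lt.1 hqx]
  have hlen : 1 ≤ y.length := by omega
  have hbd : 0 + M.p.eval y.length ≤ R := by
    rw [zero_add]
    refine (hk1 _).trans ?_
    have h5 : y.length ^ k1 ≤ y.length ^ x := Nat.pow_le_pow_right hlen (by omega)
    omega
  have h10 := run_anO M (chi A) x z z' s y R hFU hA (M.p.eval y.length) 0 (V y) hbd (hM y)
  apply hv4
  rw [h10, ← hV]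
  simp [(hs _ hv1 hv2).1]

end Pool.Agent.L0h33.LD
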